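import Pool.Agent.LibTFV.Cover

set_option autoImplicit false

/-! Properties of the covers, and the map from a cover to the detecting group. -/

namespace Pool.Agent.LibTFV

open scoped commutatorElement

theorem two_zero : (2 : ZMod 2) = 0 := by decide

theorem aux_bet (S a : ZMod 2) (P Q : ZMod 4 → ZMod 2) :
    ∑ i : ZMod 4, (if c42 i = S then a else 0) * P i * (Q (i + 1) - Q (i - 1)) =
      a * (∑ i : ZMod 4, if c42 i = S then P i else 0) *
        (∑ i : ZMod 4, if c42 i = S + 1 then Q i else 0) := by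
  have hsum : ∀ F : ZMod 4 → ZMod 2, ∑ i : ZMod 4, F i = F 0 + F 1 + F 2 + F 3 :=
    fun F => Fin.sum_univ_four F
  have c0 : c42 0 = 0 := by decide
  have c1 : c42 1 = 1 := by decide
  have c2 : c42 2 = 0 := by decide
  have c3 : c42 3 = 1 := by decide
  have hS : S = 0 ∨ S = 1 := by revert S; decide
  have d1 : (0 : ZMod 4) - 1 = 3 := by decide
  have d2 : (0 : ZMod 4) + 1 = 1 := by decide
  have d3 : (1 : ZMod 4) + 1 = 2 := by decide
  have d4 : (1 : ZMod 4) - 1 = 0 := by decide
  have d5 : (2 : ZMod 4) + 1 = 3 := by decide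
  have d6 : (2 : ZMod 4) - 1 = 1 := by decide
  have d7 : (3 : ZMod 4) + 1 = 0 := by decide
  have d8 : (3 : ZMod 4) - 1 = 2 := by decide
  have n1 : ¬ ((0 : ZMod 2) = 1) := by decide
  have n2 : ¬ ((1 : ZMod 2) = 0) := by decide
  have n3 : (1 : ZMod 2) + 1 = 0 := by decide
  rw [hsum, hsum, hsum]
  rcases hS with rfl | rfl
  · simp only [c0, c1, c2, c3, d1, d2, d3, d4, d5, d6, d7, d8, zero_add, if_true, n1, n2, if_false]
    linear_combination (- a * (P 0 * Q 3 + P 2 * Q 1)) * two_zero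
  · simp only [c0, c1, c2, c3, d1, d2, d3, d4, d5, d6, d7, d8, n3, if_true, n1, n2, if_false]
    linear_combination (- a * (P 1 * Q 0 + P 3 * Q 2)) * two_zero

theorem aux_kap (S : ZMod 2) (P Q : ZMod 4 → ZMod 2) :
    (∑ i : ZMod 4, if c42 i = S then P i else 0) *
        (∑ i : ZMod 4, if c42 i = S + 1 then Q i else 0) =
    (∑ i : ZMod 4, if c42 i = S then P i * Q (i + 1) else 0) +
      ∑ i : ZMod 4, if c42 i = S + 1 then Q i * P (i + 1) else 0 := by
  have hsum : ∀ F : ZMod 4 → ZMod 2, ∑ i : ZMod 4, F i = F 0 + F 1 + F 2 + F 3 :=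
    fun F => Fin.sum_univ_four F
  have c0 : c42 0 = 0 := by decide
  have c1 : c42 1 = 1 := by decide
  have c2 : c42 2 = 0 := by decide
  have c3 : c42 3 = 1 := by decide
  have hS : S = 0 ∨ S = 1 := by revert S; decide
  have d2 : (0 : ZMod 4) + 1 = 1 := by decide
  have d3 : (1 : ZMod 4) + 1 = 2 := by decide
  have d5 : (2 : ZMod 4) + 1 = 3 := by decide
  have d7 : (3 : ZMod 4) + 1 = 0 := by decide
  have n1 : ¬ ((0 : ZMod 2) = 1) := by decide
  have n2 : ¬ ((1 : ZMod 2) = 0) := by decide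
  have n3 : (1 : ZMod 2) + 1 = 0 := by decide
  rw [hsum, hsum, hsum, hsum]
  rcases hS with rfl | rfl
  · simp only [c0, c1, c2, c3, d2, d3, d5, d7, zero_add, if_true, n1, n2, if_false]
    ring
  · simp only [c0, c1, c2, c3, d2, d3, d5, d7, n3, if_true, n1, n2, if_false]
    ring

variable {ι : Type} [Fintype ι]

/-- Reduction of functions. -/
def redP (u : ι → ℤ) (j : ι) : (FE ι × ZMod 4 → ℤ) →+ (FE ι → ZMod 2) :=
  AddMonoidHom.mk' (fun p h => ∑ i : ZMod 4, if c42 i = su u j h then ((p (h, i) : ℤ) : ZMod 2)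
      else 0)
    (by
      intro p q
      funext h
      rw [Pi.add_apply, ← Finset.sum_add_distrib]
      apply Finset.sum_congr rfl
      intro i _
      split_ifs
      · rw [Pi.add_apply, Int.cast_add]
      · rw [add_zero])

theorem redP_apply (u : ι → ℤ) (j : ι) (p : FE ι × ZMod 4 → ℤ) (h : FE ι) :
    redP u j p h = ∑ i : ZMod 4, if c42 i = su u j h then ((p (h, i) : ℤ) : ZMod 2) else 0 := rfl

theorem act_inv_apply (u : ι → ℤ) (j : ι) (t : Tu u) (h : FE ι) (i : ZMod 4) :
    (act u j t)⁻¹ (h, i) = ((red ι t)⁻¹ * h, i - chi u j t) := by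
  rw [Equiv.Perm.inv_eq_iff_eq, act_apply, mul_inv_cancel_left, sub_add_cancel]

variable [DecidableEq ι]

theorem cov_rho (i0 : ι) (u : ι → ℤ) (j : ι) (hu : Odd (u j)) (t : Tu u)
    (p : FE ι × ZMod 4 → ℤ) :
    redP u j ((covData i0 u j hu).ρ t p) = (detData i0).ρ ((Tu u).subtype t) (redP u j p) := by
  funext h
  rw [detData_rho, redP_apply, redP_apply]
  have e : ∀ i, (covData i0 u j hu).ρ t p (h, i) = p ((red ι t)⁻¹ * h, i - chi u j t) := by
    intro i
    rw [← act_inv_apply]
    rfl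
  rw [← Equiv.sum_comp (Equiv.addRight (chi u j t.1))]
  apply Finset.sum_congr rfl
  intro i _
  rw [e]
  have e2 := su_red_mul u j t.1 t.2 ((red ι t.1)⁻¹ * h)
  rw [mul_inv_cancel_left] at e2
  rw [Equiv.coe_addRight, add_sub_cancel_right, map_add, e2]
  simp only [add_left_inj]
  rfl

theorem s0_cast (a : ZMod 2) : (((a.val : ℕ) : ℤ) : ZMod 2) = a := by
  revert a; decide

theorem cov_bet (i0 : ι) (u : ι → ℤ) (j : ι) (hu : Odd (u j))
    (p q : FE ι × ZMod 4 → ℤ) :
    Int.castAddHom (ZMod 2) ((covData i0 u j hu).β p q) =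
      (detData i0).β (redP u j p) (redP u j q) := by
  change ((betX (sg ι) (wt i0 u j) p q : ℤ) : ZMod 2) = bet i0 (redP u j p) (redP u j q)
  rw [betX_apply, bet_apply, Fintype.sum_prod_type, Int.cast_sum]
  apply Finset.sum_congr rfl
  intro h _
  rw [redP_apply, redP_apply, su_gE u j hu, ← aux_bet, Int.cast_sum]
  apply Finset.sum_congr rfl
  intro i _
  rw [sg_apply, sg_inv_apply, wt]
  by_cases hi : c42 i = su u j h
  · simp [hi]
  · simp [hi]

theorem cov_kap (i0 : ι) (u : ι → ℤ) (j : ι) (hu : Odd (u j)) (t : Tu u)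
    (p : FE ι × ZMod 4 → ℤ) :
    Int.castAddHom (ZMod 2) ((covData i0 u j hu).κ t p) =
      (detData i0).κ ((Tu u).subtype t) (redP u j p) := by
  change ((kapX (act u j) (sg ι) (wt i0 u j) t p : ℤ) : ZMod 2) = kap i0 t (redP u j p)
  let A : FE ι → ZMod 2 := fun h => ∑ i : ZMod 4, if c42 i = su u j h then
    ((p (h, i) : ℤ) : ZMod 2) * ((p (h * gE ι, i + 1) : ℤ) : ZMod 2) else 0
  have hA : ∀ h, redP u j p h * redP u j p (h * gE ι) = A h + A (h * gE ι) := by
    intro h
    rw [redP_apply, redP_apply, su_gE u j hu, aux_kap]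
    simp only [A, su_gE u j hu, mul_gE_gE]
  have e1 : ((kapX (act u j) (sg ι) (wt i0 u j) t p : ℤ) : ZMod 2) =
      ∑ h, (s0 i0 (red ι t * h) + s0 i0 h) * A h := by
    rw [kapX, Fintype.sum_prod_type, Int.cast_sum]
    apply Finset.sum_congr rfl
    intro h _
    rw [Int.cast_sum, Finset.mul_sum]
    apply Finset.sum_congr rfl
    intro i _
    rw [wt_act, sg_apply, wt]
    by_cases hi : c42 i = su u j h
    · simp [hi, sub_eq_add_neg]
    · simp [hi]
  have e2 : kap i0 t (redP u j p) = ∑ h, (s0 i0 (red ι t * h) + s0 i0 h) * A h := by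
    have e3 : kap i0 t (redP u j p) =
        ∑ h, s0 i0 h * (s0 i0 (red ι t * h) + s0 i0 h) * A h +
        ∑ h, s0 i0 h * (s0 i0 (red ι t * h) + s0 i0 h) * A (h * gE ι) := by
      rw [kap, ← Finset.sum_add_distrib]
      apply Finset.sum_congr rfl
      intro h _
      rw [hA]
      ring
    have e4 : ∑ h, s0 i0 h * (s0 i0 (red ι t * h) + s0 i0 h) * A (h * gE ι) =
        ∑ h, (s0 i0 h + 1) * (s0 i0 (red ι t * h) + s0 i0 h) * A h := by
      rw [← sum_right]
      apply Finset.sum_congr rfl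
      intro h _
      rw [mul_gE_gE, s0_gE, s0_mul_gE]
      generalize s0 i0 (red ι t * h) = a
      generalize s0 i0 h = b
      generalize A h = c
      decide +revert
    rw [e3, e4, ← Finset.sum_add_distrib]
    apply Finset.sum_congr rfl
    intro h _
    generalize s0 i0 (red ι t * h) = a
    generalize s0 i0 h = b
    generalize A h = c
    decide +revert
  rw [e1, e2]

/-- The map from the cover to the detecting group. -/
def covMap (i0 : ι) (u : ι → ℤ) (j : ι) (hu : Odd (u j)) :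
    Ext (covData i0 u j hu) →* Ext (detData i0) :=
  Ext.map (covData i0 u j hu) (detData i0) (Tu u).subtype (redP u j) (Int.castAddHom (ZMod 2))
    (cov_rho i0 u j hu) (cov_bet i0 u j hu) (cov_kap i0 u j hu)

theorem covMap_surj (i0 : ι) (u : ι → ℤ) (j : ι) (hu : Odd (u j)) (y : Ext (detData i0))
    (hy : y.t ∈ Tu u) : ∃ k, covMap i0 u j hu k = y := by
  refine ⟨⟨fun x => if x.2 = ((su u j x.1).val : ZMod 4) then ((y.p x.1).val : ℤ) else 0,
    (y.c.val : ℤ), ⟨y.t, hy⟩⟩, ?_⟩
  apply Ext.ext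
  · change redP u j _ = y.p
    funext h
    have hc : ∀ s : ZMod 2, c42 (s.val : ZMod 4) = s := by decide
    rw [redP_apply, Finset.sum_eq_single ((su u j h).val : ZMod 4)]
    · simp only [hc, if_true]
      exact s0_cast _
    · intro i _ hi
      simp only [if_neg hi, Int.cast_zero, ite_self]
    · intro h
      exact absurd (Finset.mem_univ _) h
  · change (((y.c.val : ℕ) : ℤ) : ZMod 2) = y.c
    exact s0_cast _
  · rfl

end Pool.Agent.LibTFV
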