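import Pool.Agent.LibTFV.Detect

set_option autoImplicit false

/-! Torsion-free covers of large subgroups of the detecting group. -/

namespace Pool.Agent.LibTFV

open scoped commutatorElement

section Perm

variable {T X : Type} [Group T] [Fintype X]

/-- The translation action on integral functions. -/
def rhoX (a : T →* Equiv.Perm X) : T →* AddMonoid.End (X → ℤ) where
  toFun t :=
    { toFun := fun p x => p ((a t)⁻¹ x)
      map_zero' := rfl
      map_add' := fun _ _ => rfl }
  map_one' := by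
    ext p h
    change p ((a 1)⁻¹ h) = p h
    rw [map_one, inv_one, Equiv.Perm.one_apply]
  map_mul' t s := by
    ext p h
    change p ((a (t * s))⁻¹ h) = p ((a s)⁻¹ ((a t)⁻¹ h))
    rw [map_mul, mul_inv_rev, Equiv.Perm.mul_apply]

theorem perm_inv_self {X : Type} (π : Equiv.Perm X) (x : X) : π⁻¹ (π x) = x :=
  π.symm_apply_apply x

theorem perm_self_inv {X : Type} (π : Equiv.Perm X) (x : X) : π (π⁻¹ x) = x :=
  π.apply_symm_apply x

omit [Fintype X] in
theorem rhoX_apply (a : T →* Equiv.Perm X) (t : T) (p : X → ℤ) (x : X) :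
    rhoX a t p x = p ((a t)⁻¹ x) := rfl

/-- The bilinear form. -/
def betX (σ : Equiv.Perm X) (f : X → ℤ) : (X → ℤ) →+ (X → ℤ) →+ ℤ :=
  AddMonoidHom.mk' (fun p => AddMonoidHom.mk'
      (fun q => ∑ x, f x * p x * (q (σ x) - q (σ⁻¹ x)))
    (by
      intro q q'
      rw [← Finset.sum_add_distrib]
      apply Finset.sum_congr rfl
      intro x _
      simp only [Pi.add_apply]
      ring))
    (by
      intro p p'
      refine AddMonoidHom.ext fun q => ?_
      simp only [AddMonoidHom.mk'_apply, AddMonoidHom.add_apply]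
      rw [← Finset.sum_add_distrib]
      apply Finset.sum_congr rfl
      intro x _
      simp only [Pi.add_apply]
      ring)

theorem betX_apply (σ : Equiv.Perm X) (f : X → ℤ) (p q : X → ℤ) :
    betX σ f p q = ∑ x, f x * p x * (q (σ x) - q (σ⁻¹ x)) := rfl

/-- The twisting function. -/
def kapX (a : T →* Equiv.Perm X) (σ : Equiv.Perm X) (f : X → ℤ) (t : T) (p : X → ℤ) : ℤ :=
  ∑ x, (f (a t x) - f x) * (p x * p (σ x))

theorem sumX (π : Equiv.Perm X) (F : X → ℤ) : ∑ x, F (π x) = ∑ x, F x := Equiv.sum_comp π F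

/-- Integral data from a permutation action. -/
def permData (a : T →* Equiv.Perm X) (σ : Equiv.Perm X) (f : X → ℤ)
    (hσ : ∀ t x, σ (a t x) = a t (σ x))
    (hf : ∀ t x, f (a t (σ x)) + f (a t x) = f (σ x) + f x) : Data T (X → ℤ) ℤ where
  ρ := rhoX a
  β := betX σ f
  κ := kapX a σ f
  h1 t p q := by
    have hσ' : ∀ x, σ⁻¹ (a t x) = a t (σ⁻¹ x) := by
      intro x
      rw [Equiv.Perm.inv_eq_iff_eq, hσ, perm_self_inv]
    have e1 : betX σ f (rhoX a t p) (rhoX a t q) =
        ∑ x, f (a t x) * p x * (q (σ x) - q (σ⁻¹ x)) := by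
      rw [betX_apply, ← sumX (a t)]
      apply Finset.sum_congr rfl
      intro x _
      simp only [rhoX_apply, hσ, hσ', perm_inv_self]
    have e3 : kapX a σ f t (p + q) = kapX a σ f t p + kapX a σ f t q +
        (∑ x, (f (a t x) - f x) * (p x * q (σ x)) +
        ∑ x, (f (a t x) - f x) * (q x * p (σ x))) := by
      simp only [kapX, ← Finset.sum_add_distrib]
      apply Finset.sum_congr rfl
      intro h _
      simp only [Pi.add_apply]
      ring
    have e2 : ∑ x, (f (a t x) - f x) * (q x * p (σ x)) =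
        - ∑ x, (f (a t x) - f x) * (p x * q (σ⁻¹ x)) := by
      rw [← Finset.sum_neg_distrib,
        ← sumX σ (fun x => -((f (a t x) - f x) * (p x * q (σ⁻¹ x))))]
      apply Finset.sum_congr rfl
      intro x _
      rw [perm_inv_self]
      have e := hf t x
      have e' : f (a t x) - f x = - (f (a t (σ x)) - f (σ x)) := by linarith
      rw [e']
      ring
    rw [e1, e3, e2, betX_apply]
    have e4 : ∀ A B K K' L M : ℤ, A - B = L - M →
        A = B + (K + K' + (L + - M)) - K - K' := by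
      intros; linarith
    apply e4
    rw [← Finset.sum_sub_distrib, ← Finset.sum_sub_distrib]
    apply Finset.sum_congr rfl
    intro x _
    ring
  h2 t s p := by
    have e1 : kapX a σ f t (rhoX a s p) =
        ∑ x, (f (a t (a s x)) - f (a s x)) * (p x * p (σ x)) := by
      rw [kapX, ← sumX (a s)]
      apply Finset.sum_congr rfl
      intro x _
      simp only [rhoX_apply, hσ, perm_inv_self]
    rw [e1, kapX, kapX, ← Finset.sum_add_distrib]
    apply Finset.sum_congr rfl
    intro x _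
    rw [map_mul, Equiv.Perm.mul_apply]
    ring

theorem cen_perm (a : T →* Equiv.Perm X) (σ : Equiv.Perm X) (f : X → ℤ)
    (hσ : ∀ t x, σ (a t x) = a t (σ x))
    (hf : ∀ t x, f (a t (σ x)) + f (a t x) = f (σ x) + f x) (z : T)
    (h1 : ∀ s : T, a (s * z) = a (z * s)) (h2 : a (z * z) = 1) :
    Ext.Cen (permData a σ f hσ hf) z := by
  have h1' : ∀ s : T, a ⁅s, z⁆ = 1 := by
    intro s
    rw [map_commutatorElement, commutatorElement_eq_one_iff_mul_comm, ← map_mul, ← map_mul, h1]
  refine ⟨fun s => ⟨fun p => ?_, fun p => ?_⟩, fun p => ?_⟩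
  · funext x
    change p ((a ⁅s, z⁆)⁻¹ x) = p x
    rw [h1', inv_one, Equiv.Perm.one_apply]
  · change ∑ x, (f (a ⁅s, z⁆ x) - f x) * (p x * p (σ x)) = 0
    apply Finset.sum_eq_zero
    intro x _
    rw [h1', Equiv.Perm.one_apply, sub_self, zero_mul]
  · funext x
    change p ((a z)⁻¹ ((a z)⁻¹ x)) = p x
    rw [← Equiv.Perm.mul_apply, ← mul_inv_rev, ← map_mul, h2, inv_one, Equiv.Perm.one_apply]

end Perm

section Cov

variable {ι : Type} [Fintype ι]

/-- The subgroup of the top group orthogonal to `u`. -/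
def Tu (u : ι → ℤ) : Subgroup (TT ι) where
  carrier := {t | ∑ i, u i * t.v i = 0}
  one_mem' := by simp [Heis.one_v]
  mul_mem' := by
    intro a b ha hb
    simp only [Set.mem_ofPred_eq] at ha hb ⊢
    simp only [Heis.mul_v_apply, mul_add, Finset.sum_add_distrib, ha, hb, add_zero]
  inv_mem' := by
    intro a ha
    simp only [Set.mem_ofPred_eq] at ha ⊢
    simp only [Heis.inv_v, Pi.neg_apply, mul_neg, Finset.sum_neg_distrib, ha, neg_zero]

theorem mem_Tu (u : ι → ℤ) (t : TT ι) : t ∈ Tu u ↔ ∑ i, u i * t.v i = 0 := Iff.rfl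

/-- The homomorphism to the cyclic group of order four. -/
def chi (u : ι → ℤ) (j : ι) (t : TT ι) : ZMod 4 := ((∑ i, u i * t.B i j : ℤ) : ZMod 4)

theorem chi_mul (u : ι → ℤ) (j : ι) (t s : TT ι) (ht : t ∈ Tu u) :
    chi u j (t * s) = chi u j t + chi u j s := by
  have e : ∑ i, u i * (t * s).B i j = (∑ i, u i * t.B i j) + (∑ i, u i * s.B i j) +
      (∑ i, u i * t.v i) * s.v j := by
    rw [Finset.sum_mul, ← Finset.sum_add_distrib, ← Finset.sum_add_distrib]
    apply Finset.sum_congr rfl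
    intro i _
    rw [Heis.mul_B]
    ring
  rw [chi, e, (mem_Tu u t).mp ht, zero_mul, add_zero, Int.cast_add]
  rfl

theorem chi_one (u : ι → ℤ) (j : ι) : chi u j 1 = 0 := by
  simp [chi, Heis.one_B]

/-- Reduction from `ZMod 4` to `ZMod 2`. -/
def c42 : ZMod 4 →+* ZMod 2 := ZMod.castHom (by decide) (ZMod 2)

/-- The corresponding function on the finite group. -/
def su (u : ι → ℤ) (j : ι) (h : FE ι) : ZMod 2 := ∑ i, (u i : ZMod 2) * h.B i j

theorem su_red_mul (u : ι → ℤ) (j : ι) (t : TT ι) (ht : t ∈ Tu u) (h : FE ι) :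
    su u j (red ι t * h) = su u j h + c42 (chi u j t) := by
  have e0 : ∑ i, (u i : ZMod 2) * ((t.v i : ℤ) : ZMod 2) = 0 := by
    have := congrArg (Int.cast : ℤ → ZMod 2) ((mem_Tu u t).mp ht)
    simpa using this
  have e1 : c42 (chi u j t) = ∑ i, (u i : ZMod 2) * ((t.B i j : ℤ) : ZMod 2) := by
    rw [chi, map_intCast]
    simp
  have e : su u j (red ι t * h) = (∑ i, (u i : ZMod 2) * ((t.B i j : ℤ) : ZMod 2)) + su u j h +
      (∑ i, (u i : ZMod 2) * ((t.v i : ℤ) : ZMod 2)) * h.v j := by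
    rw [su, su, Finset.sum_mul, ← Finset.sum_add_distrib, ← Finset.sum_add_distrib]
    apply Finset.sum_congr rfl
    intro i _
    rw [Heis.mul_B]
    simp only [red, Heis.map_B, Heis.map_v, eq_intCast]
    ring
  rw [e, e0, zero_mul, add_zero, e1, add_comm]

variable [DecidableEq ι]

theorem su_gE (u : ι → ℤ) (j : ι) (hu : Odd (u j)) (h : FE ι) :
    su u j (h * gE ι) = su u j h + 1 := by
  have e : su u j (h * gE ι) = su u j h + ∑ i, (u i : ZMod 2) * (if i = j then 1 else 0) := by
    rw [su, su, ← Finset.sum_add_distrib]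
    apply Finset.sum_congr rfl
    intro i _
    rw [Heis.mul_B]
    simp only [gE, Pi.zero_apply, mul_zero, add_zero]
    ring
  rw [e]
  congr 1
  simp only [mul_ite, mul_one, mul_zero, Finset.sum_ite_eq', Finset.mem_univ, if_true]
  rw [ZMod.intCast_eq_one_iff_odd]
  exact hu

/-- The action of `Tu u` on `FE ι × ZMod 4`. -/
def act (u : ι → ℤ) (j : ι) : Tu u →* Equiv.Perm (FE ι × ZMod 4) where
  toFun t := (Equiv.mulLeft (red ι t)).prodCongr (Equiv.addRight (chi u j t))
  map_one' := by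
    ext x : 1
    obtain ⟨h, i⟩ := x
    change (red ι 1 * h, i + chi u j 1) = (h, i)
    rw [map_one, one_mul, chi_one, add_zero]
  map_mul' t s := by
    ext x : 1
    obtain ⟨h, i⟩ := x
    change (red ι (t.1 * s.1) * h, i + chi u j (t.1 * s.1)) =
      (red ι t * (red ι s * h), i + chi u j s + chi u j t)
    rw [map_mul, mul_assoc, chi_mul u j _ _ t.2, add_assoc, add_comm (chi u j s.1)]

omit [DecidableEq ι] in
theorem act_apply (u : ι → ℤ) (j : ι) (t : Tu u) (h : FE ι) (i : ZMod 4) :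
    act u j t (h, i) = (red ι t * h, i + chi u j t) := rfl

/-- The permutation. -/
def sg (ι : Type) [DecidableEq ι] : Equiv.Perm (FE ι × ZMod 4) :=
  (Equiv.mulRight (gE ι)).prodCongr (Equiv.addRight 1)

omit [Fintype ι] in
theorem sg_apply (h : FE ι) (i : ZMod 4) : sg ι (h, i) = (h * gE ι, i + 1) := rfl

omit [Fintype ι] in
theorem sg_inv_apply (h : FE ι) (i : ZMod 4) : (sg ι)⁻¹ (h, i) = (h * gE ι, i - 1) := by
  rw [Equiv.Perm.inv_eq_iff_eq, sg_apply, mul_gE_gE, sub_add_cancel]

/-- The weight. -/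
def wt (i0 : ι) (u : ι → ℤ) (j : ι) (x : FE ι × ZMod 4) : ℤ :=
  if c42 x.2 = su u j x.1 then ((s0 i0 x.1).val : ℤ) else 0

omit [DecidableEq ι] in
theorem wt_act (i0 : ι) (u : ι → ℤ) (j : ι) (t : Tu u) (h : FE ι) (i : ZMod 4) :
    wt i0 u j (act u j t (h, i)) =
      if c42 i = su u j h then ((s0 i0 (red ι t * h)).val : ℤ) else 0 := by
  rw [act_apply, wt]
  simp only [map_add, su_red_mul u j t.1 t.2, add_left_inj]

theorem wt_sg (i0 : ι) (u : ι → ℤ) (j : ι) (hu : Odd (u j)) (x : FE ι × ZMod 4) :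
    wt i0 u j (sg ι x) + wt i0 u j x = if c42 x.2 = su u j x.1 then 1 else 0 := by
  obtain ⟨h, i⟩ := x
  rw [sg_apply]
  simp only [wt, map_add, map_one, su_gE u j hu, add_left_inj, s0_gE]
  split_ifs
  · generalize s0 i0 h = a
    decide +revert
  · rfl

theorem sg_act (u : ι → ℤ) (j : ι) (t : Tu u) (x : FE ι × ZMod 4) :
    sg ι (act u j t x) = act u j t (sg ι x) := by
  obtain ⟨h, i⟩ := x
  rw [sg_apply, act_apply, act_apply, sg_apply, mul_assoc, add_right_comm]

theorem wt_cond (i0 : ι) (u : ι → ℤ) (j : ι) (hu : Odd (u j)) (t : Tu u) (x : FE ι × ZMod 4) :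
    wt i0 u j (act u j t (sg ι x)) + wt i0 u j (act u j t x) = wt i0 u j (sg ι x) + wt i0 u j x := by
  rw [← sg_act, wt_sg i0 u j hu, wt_sg i0 u j hu]
  obtain ⟨h, i⟩ := x
  rw [act_apply]
  simp only [map_add, su_red_mul u j t.1 t.2, add_left_inj]

/-- The data of the cover. -/
def covData (i0 : ι) (u : ι → ℤ) (j : ι) (hu : Odd (u j)) :
    Data (Tu u) (FE ι × ZMod 4 → ℤ) ℤ :=
  permData (act u j) (sg ι) (wt i0 u j) (sg_act u j) (wt_cond i0 u j hu)

end Cov

end Pool.Agent.LibTFV
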