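import Mathlib

set_option autoImplicit false

/-! Varieties of groups given by sets of laws: the definitions. -/

namespace Pool.Agent.LibTFV

/-- The group `G` satisfies the laws `w = 1`, `w ∈ L`. Laws are elements of the free group on
countably many variables, and `G` satisfies `w = 1` if `w` becomes `1` under every substitution
of elements of `G` for the variables. The variety defined by `L` is the class of all groups
satisfying `L`. -/
def Satisfies (L : Set (FreeGroup ℕ)) (G : Type*) [Group G] : Prop :=
  ∀ w ∈ L, ∀ f : ℕ → G, FreeGroup.lift f w = 1

/-- The verbal subgroup of `G` of a set `L` of laws: the normal subgroup generated by all values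
in `G` of the words in `L`. The relatively free group on `X` of the variety defined by `L` is
`FreeGroup X ⧸ verbalSubgroup L (FreeGroup X)`. -/
def verbalSubgroup (L : Set (FreeGroup ℕ)) (G : Type*) [Group G] : Subgroup G :=
  Subgroup.normalClosure {g | ∃ w ∈ L, ∃ f : ℕ → G, FreeGroup.lift f w = g}

/-- The group `G` is nilpotent of class at most `c`. -/
def NilpotentOfClassLE (c : ℕ) (G : Type*) [Group G] : Prop :=
  ∃ _ : Group.IsNilpotent G, Group.nilpotencyClass G ≤ c

instance verbalSubgroup_normal (L : Set (FreeGroup ℕ)) (G : Type*) [Group G] :
    (verbalSubgroup L G).Normal := Subgroup.normalClosure_normal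

end Pool.Agent.LibTFV
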