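import Pool.Agent.LibTFV.Heis

set_option autoImplicit false

/-! The detecting group: the law fails in it. -/

namespace Pool.Agent.LibTFV

open scoped commutatorElement

variable {ι : Type} [Fintype ι] [DecidableEq ι]

/-- The finite group acting. -/
abbrev FE (ι : Type) := Heis (ZMod 2) ι

/-- The torsion-free top group. -/
abbrev TT (ι : Type) := Heis ℤ ι

/-- Reduction modulo two. -/
def red (ι : Type) : TT ι →* FE ι := Heis.map (Int.castRingHom (ZMod 2))

/-- The central involution. -/
def gE (ι : Type) [DecidableEq ι] : FE ι := ⟨0, fun i j => if i = j then 1 else 0⟩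

omit [Fintype ι] in
theorem gE_central (h : FE ι) : gE ι * h = h * gE ι := Heis.central rfl h

omit [Fintype ι] in
theorem gE_sq : gE ι * gE ι = 1 := Heis.sq_eq_one rfl

omit [Fintype ι] in
theorem mul_gE_gE (h : FE ι) : h * gE ι * gE ι = h := by
  rw [mul_assoc, gE_sq, mul_one]

/-- The coordinate used to separate `h` from `h g`. -/
def s0 (i0 : ι) (h : FE ι) : ZMod 2 := h.B i0 i0

omit [Fintype ι] in
theorem s0_gE (i0 : ι) (h : FE ι) : s0 i0 (h * gE ι) = s0 i0 h + 1 := by
  simp [s0, Heis.mul_B, gE]

omit [Fintype ι] in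
theorem mul_gE_ne (i0 : ι) (h : FE ι) : h * gE ι ≠ h := by
  intro e
  have := s0_gE i0 h
  rw [e] at this
  simp at this

omit [Fintype ι] in
theorem s0_mul_gE (i0 : ι) (a h : FE ι) : s0 i0 (a * (h * gE ι)) = s0 i0 (a * h) + 1 := by
  rw [← mul_assoc, s0_gE]

/-- Sums of functions invariant under `h ↦ h g` vanish in characteristic two. -/
theorem sum_invariant (i0 : ι) (F : FE ι → ZMod 2) (hF : ∀ h, F (h * gE ι) = F h) :
    ∑ h, F h = 0 := by
  apply Finset.sum_involution (fun h _ => h * gE ι)
  · intro h _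
    rw [hF]; exact CharTwo.add_self_eq_zero _
  · intro h _ _
    exact mul_gE_ne i0 h
  · intro h _
    exact Finset.mem_univ _
  · intro h _
    exact mul_gE_gE h

/-- The bilinear form. -/
def bet (i0 : ι) : (FE ι → ZMod 2) →+ (FE ι → ZMod 2) →+ ZMod 2 :=
  AddMonoidHom.mk' (fun p => AddMonoidHom.mk' (fun q => ∑ h, s0 i0 h * p h * q (h * gE ι))
    (by
      intro q q'
      simp only [Pi.add_apply, mul_add, Finset.sum_add_distrib]))
    (by
      intro p p'
      refine AddMonoidHom.ext fun q => ?_
      simp only [AddMonoidHom.mk'_apply, AddMonoidHom.add_apply, Pi.add_apply, mul_add, add_mul,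
        Finset.sum_add_distrib])

theorem bet_apply (i0 : ι) (p q : FE ι → ZMod 2) :
    bet i0 p q = ∑ h, s0 i0 h * p h * q (h * gE ι) := rfl

/-- The twisting function. -/
def kap (i0 : ι) (t : TT ι) (p : FE ι → ZMod 2) : ZMod 2 :=
  ∑ h, s0 i0 h * (s0 i0 (red ι t * h) + s0 i0 h) * (p h * p (h * gE ι))

/-- Translation action. -/
def rhoE (ι : Type) : TT ι →* AddMonoid.End (FE ι → ZMod 2) where
  toFun t :=
    { toFun := fun p h => p ((red ι t)⁻¹ * h)
      map_zero' := rfl
      map_add' := fun _ _ => rfl }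
  map_one' := by
    ext p h
    change p ((red ι 1)⁻¹ * h) = p h
    rw [map_one, inv_one, one_mul]
  map_mul' t s := by
    ext p h
    change p ((red ι (t * s))⁻¹ * h) = p ((red ι s)⁻¹ * ((red ι t)⁻¹ * h))
    rw [map_mul, mul_inv_rev, mul_assoc]

omit [Fintype ι] [DecidableEq ι] in
theorem rhoE_apply (t : TT ι) (p : FE ι → ZMod 2) (h : FE ι) :
    rhoE ι t p h = p ((red ι t)⁻¹ * h) := rfl

theorem sum_left (a : FE ι) (F : FE ι → ZMod 2) : ∑ h, F (a * h) = ∑ h, F h :=
  Equiv.sum_comp (Equiv.mulLeft a) F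

theorem sum_right (F : FE ι → ZMod 2) : ∑ h, F (h * gE ι) = ∑ h, F h :=
  Equiv.sum_comp (Equiv.mulRight (gE ι)) F

/-- The data of the detecting group. -/
def detData (i0 : ι) : Data (TT ι) (FE ι → ZMod 2) (ZMod 2) where
  ρ := rhoE ι
  β := bet i0
  κ := kap i0
  h1 t p q := by
    have e1 : bet i0 (rhoE ι t p) (rhoE ι t q) =
        ∑ h, s0 i0 (red ι t * h) * p h * q (h * gE ι) := by
      rw [bet_apply, ← sum_left (red ι t)]
      apply Finset.sum_congr rfl
      intro h _
      rw [rhoE_apply, rhoE_apply, inv_mul_cancel_left, mul_assoc (red ι t), inv_mul_cancel_left]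
    have e2 : ∑ h, s0 i0 h * (s0 i0 (red ι t * h) + s0 i0 h) * (q h * p (h * gE ι)) =
        ∑ h, (s0 i0 h + 1) * (s0 i0 (red ι t * h) + s0 i0 h) * (p h * q (h * gE ι)) := by
      rw [← sum_right]
      apply Finset.sum_congr rfl
      intro h _
      rw [mul_gE_gE, s0_gE, s0_mul_gE]
      generalize s0 i0 (red ι t * h) = a
      generalize s0 i0 h = b
      generalize p h = c
      generalize q (h * gE ι) = d
      decide +revert
    rw [e1, bet_apply]
    have e3 : kap i0 t (p + q) = kap i0 t p + kap i0 t q +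
        (∑ h, s0 i0 h * (s0 i0 (red ι t * h) + s0 i0 h) * (p h * q (h * gE ι)) +
        ∑ h, s0 i0 h * (s0 i0 (red ι t * h) + s0 i0 h) * (q h * p (h * gE ι))) := by
      simp only [kap, ← Finset.sum_add_distrib]
      apply Finset.sum_congr rfl
      intro h _
      simp only [Pi.add_apply]
      ring
    rw [e3, e2, ← Finset.sum_add_distrib]
    have e4 : ∀ a b c d : ZMod 2, a + (b + c + d) - b - c = a + d := by decide
    rw [e4, ← Finset.sum_add_distrib]
    apply Finset.sum_congr rfl
    intro h _
    generalize s0 i0 (red ι t * h) = a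
    generalize s0 i0 h = b
    generalize p h = c
    generalize q (h * gE ι) = d
    decide +revert
  h2 t s p := by
    have e1 : kap i0 t (rhoE ι s p) = ∑ h, s0 i0 (red ι s * h) *
        (s0 i0 (red ι t * (red ι s * h)) + s0 i0 (red ι s * h)) * (p h * p (h * gE ι)) := by
      rw [kap, ← sum_left (red ι s)]
      apply Finset.sum_congr rfl
      intro h _
      rw [rhoE_apply, rhoE_apply, inv_mul_cancel_left, mul_assoc (red ι s), inv_mul_cancel_left]
    rw [e1]
    have e0 := sum_invariant i0 (fun h => (s0 i0 h + s0 i0 (red ι s * h)) *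
      (s0 i0 (red ι s * h) + s0 i0 (red ι t * (red ι s * h))) * (p h * p (h * gE ι))) (by
        intro h
        simp only [← mul_assoc (red ι t), s0_gE, s0_mul_gE, mul_gE_gE]
        generalize s0 i0 (red ι t * red ι s * h) = a
        generalize s0 i0 (red ι s * h) = b
        generalize s0 i0 h = c
        generalize p h = d
        generalize p (h * gE ι) = e
        decide +revert)
    have e4 : ∀ a b c : ZMod 2, a + b + c = 0 → a = b + c := by decide
    apply e4
    rw [← e0, kap, kap, ← Finset.sum_add_distrib, ← Finset.sum_add_distrib]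
    apply Finset.sum_congr rfl
    intro h _
    simp only [map_mul, mul_assoc]
    generalize s0 i0 (red ι t * (red ι s * h)) = a
    generalize s0 i0 (red ι s * h) = b
    generalize s0 i0 h = c
    generalize p h = d
    generalize p (h * gE ι) = e
    decide +revert

theorem detData_rho (i0 : ι) (t : TT ι) (p : FE ι → ZMod 2) (h : FE ι) :
    (detData i0).ρ t p h = p ((red ι t)⁻¹ * h) := rfl

omit [Fintype ι] [DecidableEq ι] in
theorem red_comm_of_v {z : TT ι} (hz : (red ι z).v = 0) (s : TT ι) : red ι ⁅s, z⁆ = 1 := by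
  rw [map_commutatorElement, commutatorElement_eq_one_iff_mul_comm]
  exact (Heis.central hz _).symm

theorem cen_det (i0 : ι) {z : TT ι} (hz : (red ι z).v = 0) : Ext.Cen (detData i0) z := by
  refine ⟨fun s => ⟨fun p => ?_, fun p => ?_⟩, fun p => ?_⟩
  · funext h
    rw [detData_rho, red_comm_of_v hz, inv_one, one_mul]
  · change ∑ h, s0 i0 h * (s0 i0 (red ι ⁅s, z⁆ * h) + s0 i0 h) * (p h * p (h * gE ι)) = 0
    apply Finset.sum_eq_zero
    intro h _
    rw [red_comm_of_v hz, one_mul, CharTwo.add_self_eq_zero, mul_zero, zero_mul]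
  · funext h
    rw [detData_rho, detData_rho, ← mul_assoc, ← mul_inv_rev, Heis.sq_eq_one hz, inv_one, one_mul]

/-- Diagonal elements. -/
def dg (s : ι → ZMod 2) : FE ι := ⟨0, fun i j => if i = j then s i else 0⟩

omit [Fintype ι] in
theorem dg_mul (s s' : ι → ZMod 2) : dg s * dg s' = dg (s + s') := by
  ext i j
  · simp [dg, Heis.mul_v]
  · by_cases h : i = j
    · simp [dg, Heis.mul_B, h]
    · simp [dg, Heis.mul_B, h]

omit [Fintype ι] in
theorem dg_inv (s : ι → ZMod 2) : (dg s)⁻¹ = dg s :=
  inv_eq_of_mul_eq_one_right (Heis.sq_eq_one rfl)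

omit [Fintype ι] in
theorem dg_eq_one (s : ι → ZMod 2) : dg s = 1 ↔ s = 0 := by
  constructor
  · intro h
    funext i
    have := congrArg (fun x => x.B i i) h
    simpa [dg, Heis.one_B] using this
  · rintro rfl
    ext i j
    · rfl
    · simp [dg, Heis.one_B]

omit [Fintype ι] in
theorem gE_eq : gE ι = dg 1 := by
  ext i j
  · rfl
  · simp [gE, dg]

/-- The value of the alternating form against a point mass at the identity. -/
theorem omega_delta (i0 : ι) (q : FE ι → ZMod 2) :
    (detData i0).ω (Pi.single 1 1) q = q (gE ι) := by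
  have e1 : bet i0 (Pi.single 1 1) q = 0 := by
    rw [bet_apply]
    apply Finset.sum_eq_zero
    intro h _
    by_cases hh : h = 1
    · subst hh
      simp [s0, Heis.one_B]
    · simp [Pi.single_eq_of_ne hh]
  have e2 : bet i0 q (Pi.single 1 1) = q (gE ι) := by
    rw [bet_apply, Finset.sum_eq_single (gE ι)]
    · rw [gE_sq, Pi.single_eq_same]
      simp [s0, gE]
    · intro h _ hh
      rw [Pi.single_eq_of_ne, mul_zero]
      intro e
      apply hh
      have := congrArg (fun x => x * gE ι) e
      simpa [mul_gE_gE] using this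
    · intro h
      exact absurd (Finset.mem_univ _) h
  change bet i0 (Pi.single 1 1) q - bet i0 q (Pi.single 1 1) = _
  rw [e1, e2]
  generalize q (gE ι) = a
  decide +revert

/-- Standard generators of the top group. -/
def gen (i : ι) : TT ι := ⟨Pi.single i 1, 0⟩

omit [Fintype ι] in
theorem red_gen_sq (i : ι) : red ι (gen i ^ 2) = dg (Pi.single i 1) := by
  rw [map_pow, pow_two]
  ext j k
  · have := Heis.sq_v (red ι (gen i))
    rw [pow_two] at this
    rw [this]; rfl
  · simp only [Heis.mul_B, red, Heis.map_B, Heis.map_v, gen, dg, Pi.zero_apply, map_zero, add_zero,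
      zero_add]
    by_cases hj : j = i
    · subst hj
      by_cases hk : j = k
      · subst hk
        simp
      · rw [Pi.single_eq_of_ne (Ne.symm hk)]
        simp [hk]
    · rw [Pi.single_eq_of_ne hj]
      by_cases hk : j = k
      · subst hk
        simp [Pi.single_eq_of_ne hj]
      · simp [hk]

omit [Fintype ι] in
theorem red_list (l : List ι) :
    red ι ((l.map fun i => gen i ^ 2).prod) = dg (fun j => (l.count j : ZMod 2)) := by
  induction l with
  | nil =>
    simp only [List.map_nil, List.prod_nil, map_one, List.count_nil, Nat.cast_zero]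
    symm
    rw [dg_eq_one]
    rfl
  | cons a l ih =>
    rw [List.map_cons, List.prod_cons, map_mul, ih, red_gen_sq, dg_mul]
    congr 1
    funext j
    rw [Pi.add_apply, List.count_cons, Nat.cast_add, add_comm]
    congr 1
    by_cases h : a = j
    · subst h
      simp
    · rw [Pi.single_eq_of_ne (Ne.symm h)]
      simp [h]

/-- The law fails in the detecting group. -/
theorem wd_det_ne_one (i0 i1 i2 : ι) (h01 : i0 ≠ i1) (h02 : i0 ≠ i2) (h12 : i1 ≠ i2) :
    ∃ (x a b : Ext (detData i0)) (L : List (Ext (detData i0))),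
      wd x (a ^ 2) (b ^ 2) (L.map fun t => t ^ 2).prod ≠ 1 := by
  let l : List ι := ((Finset.univ.erase i0).erase i1).toList
  let em : ι → Ext (detData i0) := fun i => ⟨0, 0, gen i⟩
  have hem : ∀ i, (em i ^ 2).t = gen i ^ 2 := fun i => Ext.pow_t _ _
  have hl : (((l.map em).map fun t => t ^ 2).prod).t = (l.map fun i => gen i ^ 2).prod := by
    have := map_list_prod (Ext.toT (detData i0)) ((l.map em).map fun t => t ^ 2)
    refine Eq.trans this ?_
    rw [List.map_map, List.map_map]
    congr 1
  have hc0 : (l.count i0 : ZMod 2) = 0 := by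
    rw [List.count_eq_zero_of_not_mem, Nat.cast_zero]
    simp [l]
  have hc1 : (l.count i1 : ZMod 2) = 0 := by
    rw [List.count_eq_zero_of_not_mem, Nat.cast_zero]
    simp [l]
  have hc2 : ∀ j, j ≠ i0 → j ≠ i1 → (l.count j : ZMod 2) = 1 := by
    intro j h0 h1
    rw [List.count_eq_one_of_mem, Nat.cast_one]
    · exact Finset.nodup_toList _
    · simp [l, h0, h1]
  refine ⟨⟨Pi.single 1 1, 0, 1⟩, em i0, em i1, l.map em, ?_⟩
  have ha : (red ι (em i0 ^ 2).t).v = 0 := by rw [hem, red_gen_sq]; rfl
  have hb : (red ι (em i1 ^ 2).t).v = 0 := by rw [hem, red_gen_sq]; rfl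
  have hc : (red ι (((l.map em).map fun t => t ^ 2).prod).t).v = 0 := by
    rw [hl, red_list]; rfl
  obtain ⟨q, hq, hw⟩ := Ext.wd_eq (D := detData i0) Heis.class_two ⟨Pi.single 1 1, 0, 1⟩
    (em i0 ^ 2) (em i1 ^ 2) (((l.map em).map fun t => t ^ 2).prod)
    (cen_det i0 ha) (cen_det i0 hb) (cen_det i0 hc)
  have hqg : q (gE ι) = 1 := by
    rw [hq]
    simp only [Pi.sub_apply, detData_rho, hem, hl, red_gen_sq, red_list, map_sub, dg_inv, gE_eq, dg_mul]
    have hs : ∀ s : ι → ZMod 2, (Pi.single (1 : FE ι) (1 : ZMod 2) : FE ι → ZMod 2) (dg s) =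
        if s = 0 then 1 else 0 := by
      intro s
      by_cases h : s = 0
      · rw [if_pos h, (dg_eq_one s).mpr h, Pi.single_eq_same]
      · rw [if_neg h, Pi.single_eq_of_ne]
        rwa [Ne, dg_eq_one]
    simp only [hs]
    have n1 : ¬ ((1 : ι → ZMod 2) = 0) := by
      intro e
      have := congrFun e i0
      simp at this
    have n2 : ¬ ((fun j => (l.count j : ZMod 2)) + 1 = 0) := by
      intro e
      have := congrFun e i0
      simp [hc0] at this
    have n3 : ¬ ((Pi.single i1 1 : ι → ZMod 2) + 1 = 0) := by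
      intro e
      have := congrFun e i0
      simp [Pi.single_eq_of_ne h01] at this
    have n4 : ¬ ((fun j => (l.count j : ZMod 2)) + (Pi.single i1 1 + 1) = 0) := by
      intro e
      have := congrFun e i0
      simp [hc0, Pi.single_eq_of_ne h01] at this
    have n5 : ¬ ((Pi.single i0 1 : ι → ZMod 2) + 1 = 0) := by
      intro e
      have := congrFun e i1
      simp [Pi.single_eq_of_ne h01.symm] at this
    have n6 : ¬ ((fun j => (l.count j : ZMod 2)) + (Pi.single i0 1 + 1) = 0) := by
      intro e
      have := congrFun e i1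
      simp [hc1, Pi.single_eq_of_ne h01.symm] at this
    have n7 : ¬ ((Pi.single i1 1 : ι → ZMod 2) + (Pi.single i0 1 + 1) = 0) := by
      intro e
      have := congrFun e i2
      simp [Pi.single_eq_of_ne h02.symm, Pi.single_eq_of_ne h12.symm] at this
    have n8 : (fun j => (l.count j : ZMod 2)) + (Pi.single i1 1 + (Pi.single i0 1 + 1)) = 0 := by
      funext j
      simp only [Pi.add_apply, Pi.one_apply, Pi.zero_apply]
      by_cases h0 : j = i0
      · subst h0
        rw [hc0, Pi.single_eq_of_ne h01, Pi.single_eq_same]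
        decide
      · by_cases h1 : j = i1
        · subst h1
          rw [hc1, Pi.single_eq_of_ne h0, Pi.single_eq_same]
          decide
        · rw [hc2 j h0 h1, Pi.single_eq_of_ne h0, Pi.single_eq_of_ne h1]
          decide
    rw [if_neg n1, if_neg n2, if_neg n3, if_neg n4, if_neg n5, if_neg n6, if_neg n7, if_pos n8]
    change (0 : ZMod 2) - 0 - (0 - 0) - (0 - 0 - (0 - 1)) = 1
    decide
  intro h
  rw [hw] at h
  have := congrArg Ext.c h
  simp only [Ext.one_c, omega_delta, hqg] at this
  revert this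
  decide

end Pool.Agent.LibTFV
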