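import Mathlib

set_option autoImplicit false

/-! Extensions of a Heisenberg type group `P × C` by a group `T` acting on `P`, twisted by a
function `κ` which compensates the failure of `T`-invariance of the bilinear form `β`. -/

namespace Pool.Agent.LibTFV

open scoped commutatorElement

/-- The data. -/
structure Data (T P C : Type) [Group T] [AddCommGroup P] [AddCommGroup C] where
  ρ : T →* AddMonoid.End P
  β : P →+ P →+ C
  κ : T → P → C
  h1 : ∀ t p q, β (ρ t p) (ρ t q) = β p q + κ t (p + q) - κ t p - κ t q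
  h2 : ∀ t s p, κ (t * s) p = κ s p + κ t (ρ s p)

variable {T P C : Type} [Group T] [AddCommGroup P] [AddCommGroup C]

namespace Data

variable (D : Data T P C)

theorem rho_mul (t s : T) (p : P) : D.ρ (t * s) p = D.ρ t (D.ρ s p) := by
  rw [map_mul]; rfl

theorem rho_one (p : P) : D.ρ 1 p = p := by
  rw [map_one]; rfl

theorem rho_inv_cancel (t : T) (p : P) : D.ρ t⁻¹ (D.ρ t p) = p := by
  rw [← rho_mul, inv_mul_cancel, rho_one]

theorem rho_cancel_inv (t : T) (p : P) : D.ρ t (D.ρ t⁻¹ p) = p := by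
  rw [← rho_mul, mul_inv_cancel, rho_one]

theorem kappa_one (p : P) : D.κ 1 p = 0 := by
  have h := D.h2 1 1 p
  rw [mul_one, rho_one] at h
  simpa using h

theorem kappa_zero (t : T) : D.κ t 0 = 0 := by
  have h := D.h1 t 0 0
  simp only [map_zero, add_zero, zero_add, sub_self, zero_sub] at h
  exact neg_eq_zero.mp h.symm

/-- The alternating form. -/
def ω (p q : P) : C := D.β p q - D.β q p

theorem ω_add_left (p p' q : P) : D.ω (p + p') q = D.ω p q + D.ω p' q := by
  simp only [ω, map_add, AddMonoidHom.add_apply]; abel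

theorem ω_add_right (p q q' : P) : D.ω p (q + q') = D.ω p q + D.ω p q' := by
  simp only [ω, map_add, AddMonoidHom.add_apply]; abel

theorem ω_sub_left (p p' q : P) : D.ω (p - p') q = D.ω p q - D.ω p' q := by
  simp only [ω, map_sub, AddMonoidHom.sub_apply]; abel

theorem ω_sub_right (p q q' : P) : D.ω p (q - q') = D.ω p q - D.ω p q' := by
  simp only [ω, map_sub, AddMonoidHom.sub_apply]; abel

theorem ω_zero_left (q : P) : D.ω 0 q = 0 := by
  simp [ω]

theorem ω_zero_right (q : P) : D.ω q 0 = 0 := by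
  simp [ω]

theorem ω_swap (p q : P) : D.ω p q = - D.ω q p := by
  simp [ω]

theorem ω_inv (t : T) (p q : P) : D.ω (D.ρ t p) (D.ρ t q) = D.ω p q := by
  simp only [ω, D.h1, add_comm q p]; abel

end Data

/-- The group attached to the data. -/
@[ext]
structure Ext (D : Data T P C) where
  p : P
  c : C
  t : T

namespace Ext

variable {D : Data T P C}

instance : Mul (Ext D) :=
  ⟨fun x y => ⟨x.p + D.ρ x.t y.p, x.c + y.c + D.κ x.t y.p + D.β x.p (D.ρ x.t y.p), x.t * y.t⟩⟩

instance : One (Ext D) := ⟨⟨0, 0, 1⟩⟩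

instance : Inv (Ext D) :=
  ⟨fun x => ⟨- D.ρ x.t⁻¹ x.p, - x.c - D.κ x.t⁻¹ x.p + D.β (D.ρ x.t⁻¹ x.p) (D.ρ x.t⁻¹ x.p), x.t⁻¹⟩⟩

theorem mul_def (x y : Ext D) : x * y =
    ⟨x.p + D.ρ x.t y.p, x.c + y.c + D.κ x.t y.p + D.β x.p (D.ρ x.t y.p), x.t * y.t⟩ := rfl

theorem one_def : (1 : Ext D) = ⟨0, 0, 1⟩ := rfl

theorem inv_def (x : Ext D) : x⁻¹ =
    ⟨- D.ρ x.t⁻¹ x.p, - x.c - D.κ x.t⁻¹ x.p + D.β (D.ρ x.t⁻¹ x.p) (D.ρ x.t⁻¹ x.p), x.t⁻¹⟩ := rfl

instance : Group (Ext D) :=
  Group.ofLeftAxioms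
    (by
      intro x y z
      have h := D.h1 x.t y.p (D.ρ y.t z.p)
      have h' := D.h2 x.t y.t z.p
      ext
      · simp only [mul_def, map_add, D.rho_mul, add_assoc]
      · simp only [mul_def, map_add, D.rho_mul, AddMonoidHom.add_apply, h', h]
        abel
      · simp only [mul_def, mul_assoc])
    (by
      intro x
      ext
      · simp only [mul_def, one_def, D.rho_one, zero_add]
      · simp only [mul_def, one_def, D.rho_one, zero_add, D.kappa_one, map_zero,
          AddMonoidHom.zero_apply, add_zero]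
      · simp only [mul_def, one_def, one_mul])
    (by
      intro x
      ext
      · simp only [mul_def, inv_def, one_def]
        abel
      · simp only [mul_def, inv_def, one_def, map_neg, AddMonoidHom.neg_apply]
        abel
      · simp only [mul_def, inv_def, one_def, inv_mul_cancel])

theorem mul_p (x y : Ext D) : (x * y).p = x.p + D.ρ x.t y.p := rfl
theorem mul_t (x y : Ext D) : (x * y).t = x.t * y.t := rfl
theorem mul_c (x y : Ext D) :
    (x * y).c = x.c + y.c + D.κ x.t y.p + D.β x.p (D.ρ x.t y.p) := rfl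
theorem inv_p (x : Ext D) : (x⁻¹).p = - D.ρ x.t⁻¹ x.p := rfl
theorem inv_t (x : Ext D) : (x⁻¹).t = x.t⁻¹ := rfl
theorem one_p : (1 : Ext D).p = 0 := rfl
theorem one_c : (1 : Ext D).c = 0 := rfl
theorem one_t : (1 : Ext D).t = 1 := rfl

/-- Projection to the top group. -/
def toT (D : Data T P C) : Ext D →* T where
  toFun := Ext.t
  map_one' := rfl
  map_mul' _ _ := rfl

theorem comm_t (x y : Ext D) : (⁅x, y⁆ : Ext D).t = ⁅x.t, y.t⁆ := map_commutatorElement (toT D) x y

theorem pow_t (x : Ext D) (n : ℕ) : (x ^ n).t = x.t ^ n := map_pow (toT D) x n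

theorem comm_p (x y : Ext D) : (⁅x, y⁆ : Ext D).p =
    x.p + D.ρ x.t y.p - D.ρ (x.t * y.t * x.t⁻¹) x.p - D.ρ ⁅x.t, y.t⁆ y.p := by
  simp only [commutatorElement_def, mul_p, mul_t, inv_p, inv_t, map_neg, D.rho_mul]
  abel

/-- Elements of the top group acting trivially in every respect. -/
def Triv (D : Data T P C) (t : T) : Prop := (∀ p, D.ρ t p = p) ∧ ∀ p, D.κ t p = 0

theorem triv_one (D : Data T P C) : Triv D 1 := ⟨D.rho_one, D.kappa_one⟩

/-- Commutators of elements acting trivially, with commuting top parts. -/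
theorem comm_triv (x y : Ext D) (hx : Triv D x.t) (hy : Triv D y.t) (hc : ⁅x.t, y.t⁆ = 1) :
    ⁅x, y⁆ = ⟨0, D.ω x.p y.p, 1⟩ := by
  have h : x * y = (⟨0, D.ω x.p y.p, 1⟩ : Ext D) * (y * x) := by
    ext
    · simp only [mul_p, hx.1, hy.1, D.rho_one]; abel
    · simp only [mul_c, hx.1, hy.1, hx.2, hy.2, D.rho_one, D.kappa_one, map_zero,
        AddMonoidHom.zero_apply, Data.ω]
      abel
    · simp only [mul_t, one_mul]
      exact commutatorElement_eq_one_iff_mul_comm.mp hc
  rw [commutatorElement_def, h]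
  group

theorem mul_central (a b : C) : (⟨0, a, 1⟩ : Ext D) * ⟨0, b, 1⟩ = ⟨0, a + b, 1⟩ := by
  ext
  · simp only [mul_p, map_zero, add_zero]
  · simp only [mul_c, map_zero, add_zero, D.kappa_one]
  · simp only [mul_t, one_mul]

end Ext

end Pool.Agent.LibTFV
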