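import Pool.Agent.LibTFV.CovMap

set_option autoImplicit false

/-! Torsion-free groups satisfying the laws, and the covering property. -/

namespace Pool.Agent.LibTFV

open scoped commutatorElement

/-- Torsion-free groups whose third term of the lower central series is nilpotent of class at
most two and which satisfy all the laws. -/
structure Good (K : Type) [Group K] : Prop where
  tf : ∀ (x : K) (n : ℕ), n ≠ 0 → x ^ n = 1 → x = 1
  law : ∀ (x a b : K) (L : List K), wd x (a ^ 2) (b ^ 2) (L.map fun t => t ^ 2).prod = 1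
  nil : ∀ x ∈ (⊤ : Subgroup K).lowerCentralSeries 2, ∀ y ∈ (⊤ : Subgroup K).lowerCentralSeries 2,
    ∀ z ∈ (⊤ : Subgroup K).lowerCentralSeries 2, ⁅⁅x, y⁆, z⁆ = 1

/-- Third term of the lower central series of a group all of whose triple commutators vanish. -/
theorem lcs_two_of_class_two {T : Type*} [Group T] (hT : ∀ a b c : T, ⁅⁅a, b⁆, c⁆ = 1) :
    (⊤ : Subgroup T).lowerCentralSeries 2 = ⊥ := by
  rw [Subgroup.lowerCentralSeries_succ, Subgroup.lowerCentralSeries_succ,
    Subgroup.lowerCentralSeries_zero, Subgroup.commutator_eq_bot_iff_le_centralizer,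
    Subgroup.commutator_le]
  intro a _ b _
  rw [Subgroup.mem_centralizer_iff]
  intro c _
  have := commutatorElement_eq_one_iff_mul_comm.mp (hT a b c)
  exact this.symm

section

variable {ι : Type} [Fintype ι] [DecidableEq ι]

omit [DecidableEq ι] in
theorem Tu_class_two (u : ι → ℤ) (a b c : Tu u) : ⁅⁅a, b⁆, c⁆ = 1 := by
  apply (Tu u).subtype_injective
  rw [map_commutatorElement, map_commutatorElement, map_one]
  exact Heis.class_two _ _ _

theorem cov_cen (i0 : ι) (u : ι → ℤ) (j : ι) (hu : Odd (u j)) (t : Tu u) :
    Ext.Cen (covData i0 u j hu) (t ^ 2) := by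
  have hv : (red ι (t ^ 2 : Tu u)).v = 0 := by
    rw [Subgroup.coe_pow, map_pow]
    exact Heis.sq_v _
  apply cen_perm
  · intro s
    apply Equiv.ext
    rintro ⟨h, i⟩
    rw [act_apply, act_apply, Subgroup.coe_mul, Subgroup.coe_mul, chi_mul u j _ _ s.2,
      chi_mul u j _ _ (t ^ 2).2, map_mul, map_mul, Heis.central hv, add_comm (chi u j s.1)]
  · apply Equiv.ext
    rintro ⟨h, i⟩
    have h4 : chi u j ((t ^ 2 : Tu u) : TT ι) + chi u j ((t ^ 2 : Tu u) : TT ι) = 0 := by
      rw [Subgroup.coe_pow, pow_two, chi_mul u j _ _ t.2]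
      generalize chi u j (t : TT ι) = c
      decide +revert
    rw [act_apply, Subgroup.coe_mul, chi_mul u j _ _ (t ^ 2).2, h4, map_mul, Heis.sq_eq_one hv,
      one_mul, add_zero, Equiv.Perm.one_apply]

theorem cov_good (i0 : ι) (u : ι → ℤ) (j : ι) (hu : Odd (u j)) :
    Good (Ext (covData i0 u j hu)) where
  tf := by
    apply Ext.torsion_free
    · intro t n hn h
      apply Subtype.ext
      apply Heis.torsion_free t.1 n hn
      rw [← Subgroup.coe_pow, h]; rfl
    · intro p n hn h
      exact (smul_eq_zero_iff_right hn).mp h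
    · intro p n hn h
      exact (smul_eq_zero_iff_right hn).mp h
  law x a b L := by
    apply Ext.wd_squares (Tu_class_two u)
    · intro c hc; omega
    · exact cov_cen i0 u j hu
  nil := by
    have key : ∀ x ∈ (⊤ : Subgroup (Ext (covData i0 u j hu))).lowerCentralSeries 2, x.t = 1 := by
      intro x hx
      have h1 : Ext.toT (covData i0 u j hu) x ∈ (⊤ : Subgroup (Tu u)).lowerCentralSeries 2 := by
        have h2 := Subgroup.mem_map_of_mem (Ext.toT (covData i0 u j hu)) hx
        rw [Subgroup.map_lowerCentralSeries] at h2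
        exact Subgroup.lowerCentralSeries_mono 2 le_top h2
      rw [lcs_two_of_class_two (Tu_class_two u), Subgroup.mem_bot] at h1
      exact h1
    intro x hx y hy z hz
    exact Ext.comm_comm_ker x y z (key x hx) (key y hy) (key z hz)

end

/-- Few integer vectors are orthogonal to an integer vector with an odd entry. -/
theorem exists_odd_orthogonal (m r : ℕ) (hmr : m < r) (v : ℕ → Fin r → ℤ) :
    ∃ (u : Fin r → ℤ) (j : Fin r), Odd (u j) ∧ ∀ n < m, ∑ i, u i * v n i = 0 := by
  have h0 : ∃ u : Fin r → ℤ, u ≠ 0 ∧ ∀ n < m, ∑ i, u i * v n i = 0 := by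
    let F : (Fin r → ℤ) →ₗ[ℤ] (Fin m → ℤ) :=
      { toFun := fun u n => ∑ i, u i * v n i
        map_add' := by
          intro u u'
          funext n
          simp [add_mul, Finset.sum_add_distrib]
        map_smul' := by
          intro c u
          funext n
          simp [Finset.mul_sum, mul_assoc] }
    have hF : ¬ Function.Injective F := by
      intro hi
      have := card_le_of_injective ℤ F hi
      simp at this
      omega
    rw [← LinearMap.ker_eq_bot, LinearMap.ker_eq_bot'] at hF
    push Not at hF
    obtain ⟨u, hu, hu0⟩ := hF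
    refine ⟨u, hu0, fun n hn => ?_⟩
    exact congrFun hu ⟨n, hn⟩
  have h1 : ∀ (k : ℕ) (u : Fin r → ℤ), ∑ i, (u i).natAbs ≤ k → u ≠ 0 →
      (∀ n < m, ∑ i, u i * v n i = 0) →
      ∃ (u : Fin r → ℤ) (j : Fin r), Odd (u j) ∧ ∀ n < m, ∑ i, u i * v n i = 0 := by
    intro k
    induction k with
    | zero =>
      intro u hk hu0 _
      exfalso
      apply hu0
      funext i
      have := Finset.sum_eq_zero_iff.mp (Nat.le_zero.mp hk) i (Finset.mem_univ i)
      exact Int.natAbs_eq_zero.mp this
    | succ k ih =>
      intro u hk hu0 hu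
      by_cases hodd : ∃ j, Odd (u j)
      · obtain ⟨j, hj⟩ := hodd
        exact ⟨u, j, hj, hu⟩
      · push Not at hodd
        have hev : ∀ j, ∃ c, u j = 2 * c := by
          intro j
          have := Int.not_odd_iff_even.mp (hodd j)
          obtain ⟨c, hc⟩ := this
          exact ⟨c, by rw [hc]; ring⟩
        choose w hw using hev
        have hw0 : w ≠ 0 := by
          rintro rfl
          apply hu0
          funext j
          rw [hw j]; simp
        apply ih w _ hw0
        · intro n hn
          have := hu n hn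
          have e : ∑ i, u i * v n i = 2 * ∑ i, w i * v n i := by
            rw [Finset.mul_sum]
            apply Finset.sum_congr rfl
            intro i _
            rw [hw i]; ring
          rw [e] at this
          omega
        · have e : ∑ i, (u i).natAbs = 2 * ∑ i, (w i).natAbs := by
            rw [Finset.mul_sum]
            apply Finset.sum_congr rfl
            intro i _
            rw [hw i, Int.natAbs_mul]; rfl
          have hpos : 0 < ∑ i, (w i).natAbs := by
            obtain ⟨j, hj⟩ := Function.ne_iff.mp hw0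
            apply Finset.sum_pos' (fun i _ => Nat.zero_le _)
            exact ⟨j, Finset.mem_univ j, Int.natAbs_pos.mpr hj⟩
          omega
  obtain ⟨u, hu0, hu⟩ := h0
  exact h1 _ u le_rfl hu0 hu

/-- For each `m` there is a group in which some law of all good groups fails, but such that
homomorphisms from free groups of rank `m` to it factor through good groups. -/
theorem exists_detecting (m : ℕ) : ∃ (G : Type) (_ : Group G),
    (∃ (x a b : G) (L : List G), wd x (a ^ 2) (b ^ 2) (L.map fun t => t ^ 2).prod ≠ 1) ∧
    ∀ f : ℕ → G, (∀ n, m ≤ n → f n = 1) →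
      ∃ (K : Type) (_ : Group K) (ψ : K →* G), Good K ∧ ∀ n, ∃ k, ψ k = f n := by
  let i0 : Fin (m + 3) := ⟨0, by omega⟩
  refine ⟨Ext (detData i0), inferInstance, ?_, ?_⟩
  · exact wd_det_ne_one i0 ⟨1, by omega⟩ ⟨2, by omega⟩ (by simp [i0]) (by simp [i0]) (by simp)
  · intro f hf
    obtain ⟨u, j, hu, huv⟩ := exists_odd_orthogonal m (m + 3) (by omega) (fun n => (f n).t.v)
    refine ⟨Ext (covData i0 u j hu), inferInstance, covMap i0 u j hu, cov_good _ u j hu, ?_⟩
    intro n
    apply covMap_surj
    rw [mem_Tu]
    by_cases hn : n < m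
    · exact huv n hn
    · rw [hf n (not_lt.mp hn)]
      simp [Ext.one_t, Heis.one_v]

end Pool.Agent.LibTFV
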