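import Pool.Agent.LibTFV.Law

set_option autoImplicit false

/-! The group of pairs `(v, B)`, `v` a vector and `B` a square matrix, with
`(v, B) (v', B') = (v + v', B + B' + v v'ᵀ)`. -/

namespace Pool.Agent.LibTFV

open scoped commutatorElement

/-- Pairs of a vector and a square matrix. -/
@[ext]
structure Heis (R ι : Type) where
  v : ι → R
  B : ι → ι → R

namespace Heis

variable {R ι : Type} [CommRing R]

instance : Mul (Heis R ι) := ⟨fun x y => ⟨x.v + y.v, fun i j => x.B i j + y.B i j + x.v i * y.v j⟩⟩
instance : One (Heis R ι) := ⟨⟨0, 0⟩⟩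
instance : Inv (Heis R ι) := ⟨fun x => ⟨- x.v, fun i j => - x.B i j + x.v i * x.v j⟩⟩

instance : Group (Heis R ι) :=
  Group.ofLeftAxioms
    (by
      intro x y z
      apply Heis.ext
      · exact add_assoc _ _ _
      · funext i j
        change (x.B i j + y.B i j + x.v i * y.v j) + z.B i j + (x.v i + y.v i) * z.v j =
          x.B i j + (y.B i j + z.B i j + y.v i * z.v j) + x.v i * (y.v j + z.v j)
        ring)
    (by
      intro x
      apply Heis.ext
      · exact zero_add _
      · funext i j
        change 0 + x.B i j + 0 * x.v j = x.B i j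
        ring)
    (by
      intro x
      apply Heis.ext
      · exact neg_add_cancel _
      · funext i j
        change (- x.B i j + x.v i * x.v j) + x.B i j + (- x.v i) * x.v j = 0
        ring)

theorem mul_v (x y : Heis R ι) : (x * y).v = x.v + y.v := rfl
theorem mul_v_apply (x y : Heis R ι) (i : ι) : (x * y).v i = x.v i + y.v i := rfl
theorem mul_B (x y : Heis R ι) (i j : ι) :
    (x * y).B i j = x.B i j + y.B i j + x.v i * y.v j := rfl
theorem one_v : (1 : Heis R ι).v = 0 := rfl
theorem one_B : (1 : Heis R ι).B = 0 := rfl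
theorem inv_v (x : Heis R ι) : (x⁻¹).v = - x.v := rfl
theorem inv_B (x : Heis R ι) (i j : ι) : (x⁻¹).B i j = - x.B i j + x.v i * x.v j := rfl

/-- Elements with trivial vector part are central. -/
theorem central {x : Heis R ι} (hx : x.v = 0) (y : Heis R ι) : x * y = y * x := by
  ext i j
  · rw [mul_v, mul_v, add_comm]
  · rw [mul_B, mul_B, hx]
    simp only [Pi.zero_apply]
    ring

theorem comm_v (x y : Heis R ι) : (⁅x, y⁆ : Heis R ι).v = 0 := by
  rw [commutatorElement_def]
  simp only [mul_v, inv_v]
  abel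

theorem class_two (x y z : Heis R ι) : ⁅⁅x, y⁆, z⁆ = 1 := by
  rw [commutatorElement_eq_one_iff_mul_comm]
  exact central (comm_v x y) z

theorem pow_v (x : Heis R ι) (n : ℕ) : (x ^ n).v = n • x.v := by
  induction n with
  | zero => rw [pow_zero, one_v, zero_smul]
  | succ n ih => rw [pow_succ, mul_v, ih, succ_nsmul]

theorem pow_B (x : Heis R ι) (hx : x.v = 0) (n : ℕ) : (x ^ n).B = n • x.B := by
  induction n with
  | zero => rw [pow_zero, one_B, zero_smul]
  | succ n ih =>
    funext i j
    rw [pow_succ, mul_B, ih, succ_nsmul, hx]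
    simp

/-- Base change. -/
def map {S : Type} [CommRing S] (φ : R →+* S) : Heis R ι →* Heis S ι where
  toFun x := ⟨fun i => φ (x.v i), fun i j => φ (x.B i j)⟩
  map_one' := by
    ext i j
    · simp [one_v]
    · simp [one_B]
  map_mul' x y := by
    ext i j
    · simp [mul_v]
    · simp [mul_B]

theorem map_v {S : Type} [CommRing S] (φ : R →+* S) (x : Heis R ι) (i : ι) :
    (map φ x).v i = φ (x.v i) := rfl

theorem map_B {S : Type} [CommRing S] (φ : R →+* S) (x : Heis R ι) (i j : ι) :
    (map φ x).B i j = φ (x.B i j) := rfl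

/-- As a type, `Heis R ι` is a product. -/
def equivProd (R ι : Type) : Heis R ι ≃ (ι → R) × (ι → ι → R) where
  toFun x := (x.v, x.B)
  invFun x := ⟨x.1, x.2⟩
  left_inv _ := rfl
  right_inv _ := rfl

instance [Fintype ι] [DecidableEq ι] [Fintype R] [DecidableEq R] : Fintype (Heis R ι) :=
  Fintype.ofEquiv _ (equivProd R ι).symm

instance [Fintype ι] [DecidableEq ι] [Fintype R] [DecidableEq R] : DecidableEq (Heis R ι) :=
  fun x y => decidable_of_iff (equivProd R ι x = equivProd R ι y) (equivProd R ι).injective.eq_iff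

theorem torsion_free {ι : Type} (x : Heis ℤ ι) (n : ℕ) (hn : n ≠ 0) (h : x ^ n = 1) : x = 1 := by
  have hv : x.v = 0 := by
    have e := pow_v x n
    rw [h, one_v] at e
    exact (smul_eq_zero_iff_right hn).mp e.symm
  have hB : x.B = 0 := by
    have e := pow_B x hv n
    rw [h, one_B] at e
    exact (smul_eq_zero_iff_right hn).mp e.symm
  ext i j
  · rw [hv]; rfl
  · rw [hB]; rfl

/-- The matrix part embedded. -/
def mat (R : Type) {ι : Type} [CommRing R] (B : ι → ι → R) : Heis R ι := ⟨0, B⟩

theorem mat_mul (B B' : ι → ι → R) : mat R B * mat R B' = mat R (B + B') := by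
  ext i j
  · simp [mat, mul_v]
  · simp [mat, mul_B]

/-- Squares in characteristic two. -/
theorem sq_v (x : Heis (ZMod 2) ι) : (x ^ 2).v = 0 := by
  rw [pow_v]
  funext i
  rw [Pi.smul_apply, Pi.zero_apply, two_smul]
  exact CharTwo.add_self_eq_zero _

theorem sq_eq_one {x : Heis (ZMod 2) ι} (hx : x.v = 0) : x * x = 1 := by
  ext i j
  · rw [mul_v, hx, add_zero, one_v]
  · rw [mul_B, hx, one_B, CharTwo.add_self_eq_zero]
    simp

end Heis

end Pool.Agent.LibTFV
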