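import Pool.Agent.LibTFV.Ext

set_option autoImplicit false

/-! The law: its value in an extension `Ext D`. -/

namespace Pool.Agent.LibTFV

open scoped commutatorElement

/-- The word `[[x, a], [x b x⁻¹, c]] · [[x, b], [x c x⁻¹, a]] · [[x, c], [x a x⁻¹, b]]`. -/
def wd {G : Type*} [Group G] (x a b c : G) : G :=
  ⁅⁅x, a⁆, ⁅x * b * x⁻¹, c⁆⁆ * ⁅⁅x, b⁆, ⁅x * c * x⁻¹, a⁆⁆ * ⁅⁅x, c⁆, ⁅x * a * x⁻¹, b⁆⁆

theorem map_wd {G H : Type*} [Group G] [Group H] (f : G →* H) (x a b c : G) :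
    f (wd x a b c) = wd (f x) (f a) (f b) (f c) := by
  simp only [wd, map_mul, map_commutatorElement, map_inv]

section Abstract

variable {P C : Type} [AddCommGroup P] [AddCommGroup C]

theorem cyc_sum (ω : P → P → C)
    (ar : ∀ p q q', ω p (q + q') = ω p q + ω p q')
    (sl : ∀ p p' q, ω (p - p') q = ω p q - ω p' q)
    (sr : ∀ p q q', ω p (q - q') = ω p q - ω p q')
    (sw : ∀ p q, ω p q = - ω q p)
    (X N1 N2 N3 : P → P)
    (hX : ∀ p q, ω (X p) (X q) = ω p q)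
    (a1 : ∀ p q, ω (N1 p) q = ω p (N1 q))
    (a2 : ∀ p q, ω (N2 p) q = ω p (N2 q))
    (a3 : ∀ p q, ω (N3 p) q = ω p (N3 q))
    (c1 : ∀ p, N1 (X p) = X (N1 p))
    (c2 : ∀ p, N2 (X p) = X (N2 p))
    (c3 : ∀ p, N3 (X p) = X (N3 p))
    (c12 : ∀ p, N2 (N1 p) = N1 (N2 p))
    (c13 : ∀ p, N3 (N1 p) = N1 (N3 p))
    (c23 : ∀ p, N3 (N2 p) = N2 (N3 p))
    (p a b c : P) :
    ω (N1 p - (a - X a)) (N2 (N3 p) + X (N3 b) - N2 c) +
    ω (N2 p - (b - X b)) (N3 (N1 p) + X (N1 c) - N3 a) +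
    ω (N3 p - (c - X c)) (N1 (N2 p) + X (N2 a) - N1 b) =
    ω p (N1 (N2 (N3 p))) + ω p (N1 (N2 (N3 p))) + ω p (N1 (N2 (N3 p))) := by
  have e1 : ω a (N2 (N3 p)) = - ω p (N2 (N3 a)) := by rw [sw, a2, a3, c23]
  have e2 : ω b (N1 (N3 p)) = - ω p (N1 (N3 b)) := by rw [sw, a1, a3, c13]
  have e3 : ω c (N1 (N2 p)) = - ω p (N1 (N2 c)) := by rw [sw, a1, a2, c12]
  have f1 : ω (X a) (N2 (N3 p)) = - ω p (X (N2 (N3 a))) := by rw [sw, a2, a3, c2, c3, c23]
  have f2 : ω (X b) (N1 (N3 p)) = - ω p (X (N1 (N3 b))) := by rw [sw, a1, a3, c1, c3, c13]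
  have f3 : ω (X c) (N1 (N2 p)) = - ω p (X (N1 (N2 c))) := by rw [sw, a1, a2, c1, c2, c12]
  have g1 : ω b (N3 a) = - ω a (N3 b) := by rw [sw, a3]
  have g2 : ω c (N1 b) = - ω b (N1 c) := by rw [sw, a1]
  have g3 : ω a (N2 c) = - ω c (N2 a) := by rw [sw, a2]
  have k1 : ω (X b) (N3 a) = - ω a (X (N3 b)) := by rw [sw, a3, c3]
  have k2 : ω (X c) (N1 b) = - ω b (X (N1 c)) := by rw [sw, a1, c1]
  have k3 : ω (X a) (N2 c) = - ω c (X (N2 a)) := by rw [sw, a2, c2]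
  simp only [ar, sl, sr, a1, a2, a3, hX, c1, c2, c3, c12, c13, c23, e1, e2, e3, f1, f2, f3,
    g1, g2, g3, k1, k2, k3]
  abel

end Abstract

variable {T P C : Type} [Group T] [AddCommGroup P] [AddCommGroup C]

namespace Ext

variable {D : Data T P C}

/-- The element `z` of the top group acts as an involution, and it is central up to elements
acting trivially. -/
def Cen (D : Data T P C) (z : T) : Prop :=
  (∀ s : T, Triv D (⁅s, z⁆ : T)) ∧ ∀ p, D.ρ z (D.ρ z p) = p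

theorem Cen.comm {z : T} (h : Cen D z) (s : T) (p : P) : D.ρ s (D.ρ z p) = D.ρ z (D.ρ s p) := by
  rw [← D.rho_mul, ← D.rho_mul]
  have e : s * z = ⁅s, z⁆ * (z * s) := by
    rw [commutatorElement_def]; group
  rw [e, D.rho_mul, (h.1 s).1]

theorem Cen.conj {z : T} (h : Cen D z) (s : T) (p : P) : D.ρ (s * z * s⁻¹) p = D.ρ z p := by
  rw [D.rho_mul, D.rho_mul, h.comm, D.rho_cancel_inv]

theorem Cen.adj {z : T} (h : Cen D z) (p q : P) : D.ω (D.ρ z p) q = D.ω p (D.ρ z q) := by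
  conv_lhs => rw [← h.2 q]
  rw [D.ω_inv]

theorem comm_p_cen (x g : Ext D) (h : Cen D g.t) :
    (⁅x, g⁆ : Ext D).p = (x.p - D.ρ g.t x.p) - (g.p - D.ρ x.t g.p) := by
  rw [comm_p, h.conj, (h.1 x.t).1]
  abel

theorem conj_p_cen (x g : Ext D) (h : Cen D g.t) :
    (x * g * x⁻¹ : Ext D).p = (x.p - D.ρ g.t x.p) + D.ρ x.t g.p := by
  have e := h.conj x.t x.p
  rw [D.rho_mul] at e
  simp only [mul_p, mul_t, inv_p, map_neg, e]
  abel

theorem comm2_p_cen (x b c : Ext D) (hb : Cen D b.t) (hc : Cen D c.t) :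
    (⁅x * b * x⁻¹, c⁆ : Ext D).p =
      ((x.p - D.ρ c.t x.p) - D.ρ b.t (x.p - D.ρ c.t x.p)) +
      D.ρ x.t (b.p - D.ρ c.t b.p) - (c.p - D.ρ b.t c.p) := by
  have e : (x * b * x⁻¹).t = x.t * b.t * x.t⁻¹ := rfl
  rw [comm_p_cen _ _ hc, conj_p_cen _ _ hb, e, hb.conj]
  simp only [map_add, map_sub, hc.comm x.t b.p, hb.comm c.t x.p]
  abel

theorem comm_comm (hT : ∀ a b c : T, ⁅⁅a, b⁆, c⁆ = 1) (x a b c : Ext D)
    (ha : Cen D a.t) (hb : Cen D b.t) (hc : Cen D c.t) :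
    ⁅⁅x, a⁆, ⁅x * b * x⁻¹, c⁆⁆ =
      (⟨0, D.ω ((x.p - D.ρ a.t x.p) - (a.p - D.ρ x.t a.p))
        (((x.p - D.ρ c.t x.p) - D.ρ b.t (x.p - D.ρ c.t x.p)) +
      D.ρ x.t (b.p - D.ρ c.t b.p) - (c.p - D.ρ b.t c.p)), 1⟩ : Ext D) := by
  rw [comm_triv, comm_p_cen _ _ ha, comm2_p_cen _ _ _ hb hc]
  · rw [comm_t]; exact ha.1 _
  · rw [comm_t]; exact hc.1 _
  · rw [comm_t]; exact hT _ _ _

/-- The value of the word. -/
theorem wd_eq (hT : ∀ a b c : T, ⁅⁅a, b⁆, c⁆ = 1) (x a b c : Ext D)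
    (ha : Cen D a.t) (hb : Cen D b.t) (hc : Cen D c.t) :
    ∃ q : P, q = ((x.p - D.ρ c.t x.p) - D.ρ b.t (x.p - D.ρ c.t x.p)) -
        D.ρ a.t ((x.p - D.ρ c.t x.p) - D.ρ b.t (x.p - D.ρ c.t x.p)) ∧
      wd x a b c = (⟨0, D.ω x.p q + D.ω x.p q + D.ω x.p q, 1⟩ : Ext D) := by
  refine ⟨_, rfl, ?_⟩
  have key := cyc_sum (ω := D.ω) D.ω_add_right D.ω_sub_left D.ω_sub_right D.ω_swap
    (X := fun p => D.ρ x.t p) (N1 := fun p => p - D.ρ a.t p) (N2 := fun p => p - D.ρ b.t p)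
    (N3 := fun p => p - D.ρ c.t p) (D.ω_inv x.t)
    (by intro p q; simp only [D.ω_sub_left, D.ω_sub_right, ha.adj])
    (by intro p q; simp only [D.ω_sub_left, D.ω_sub_right, hb.adj])
    (by intro p q; simp only [D.ω_sub_left, D.ω_sub_right, hc.adj])
    (by intro p; simp only [map_sub, ha.comm])
    (by intro p; simp only [map_sub, hb.comm])
    (by intro p; simp only [map_sub, hc.comm])
    (by intro p; simp only [map_sub, ha.comm]; abel)
    (by intro p; simp only [map_sub, ha.comm]; abel)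
    (by intro p; simp only [map_sub, hb.comm]; abel)
    x.p a.p b.p c.p
  rw [wd, comm_comm hT x a b c ha hb hc, comm_comm hT x b c a hb hc ha,
    comm_comm hT x c a b hc ha hb, mul_central, mul_central]
  congr 1

/-- Self-adjointness kills the value of the word, up to `2`-torsion. -/
theorem omega_two (x : P) (a b c : T) (ha : Cen D a) (hb : Cen D b) (hc : Cen D c) (q : P)
    (hq : q = ((x - D.ρ c x) - D.ρ b (x - D.ρ c x)) -
        D.ρ a ((x - D.ρ c x) - D.ρ b (x - D.ρ c x))) :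
    D.ω x q + D.ω x q = 0 := by
  have h : D.ω q x = D.ω x q := by
    subst hq
    simp only [map_sub, D.ω_sub_left, D.ω_sub_right, ha.adj, hb.adj, hc.adj]
    rw [ha.comm b, ha.comm c, hb.comm c x, ha.comm c, hb.comm c x]
  have h2 := D.ω_swap x q
  rw [h] at h2
  nth_rewrite 2 [h2]
  exact add_neg_cancel _

/-- The law holds when `C` has no elements of order two. -/
theorem wd_eq_one (hT : ∀ a b c : T, ⁅⁅a, b⁆, c⁆ = 1) (hC : ∀ c : C, c + c = 0 → c = 0)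
    (x a b c : Ext D) (ha : Cen D a.t) (hb : Cen D b.t) (hc : Cen D c.t) :
    wd x a b c = 1 := by
  obtain ⟨q, hq, h⟩ := wd_eq hT x a b c ha hb hc
  have h0 : D.ω x.p q = 0 := hC _ (omega_two x.p a.t b.t c.t ha hb hc q hq)
  rw [h, h0]
  simp [one_def]

theorem Triv.mul {t s : T} (ht : Triv D t) (hs : Triv D s) : Triv D (t * s) := by
  refine ⟨fun p => ?_, fun p => ?_⟩
  · rw [D.rho_mul, hs.1, ht.1]
  · rw [D.h2, hs.2, ht.2, add_zero]

theorem Cen.mul (hT : ∀ a b c : T, ⁅⁅a, b⁆, c⁆ = 1) {z w : T} (hz : Cen D z) (hw : Cen D w) :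
    Cen D (z * w) := by
  refine ⟨fun s => ?_, fun p => ?_⟩
  · have e : ⁅s, z * w⁆ = ⁅s, z⁆ * ⁅s, w⁆ := by
      have h := commutatorElement_eq_one_iff_mul_comm.mp (hT s w z)
      have h' : z * ⁅s, w⁆ * z⁻¹ = ⁅s, w⁆ := by rw [← h]; group
      calc ⁅s, z * w⁆ = ⁅s, z⁆ * (z * ⁅s, w⁆ * z⁻¹) := by
            simp only [commutatorElement_def]; group
        _ = _ := by rw [h']
    rw [e]
    exact (hz.1 s).mul (hw.1 s)
  · rw [D.rho_mul, D.rho_mul, ← hz.comm w, hz.2, hw.2]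

theorem Cen.one : Cen D (1 : T) := by
  refine ⟨fun s => ?_, fun p => ?_⟩
  · rw [commutatorElement_one_right]; exact triv_one D
  · rw [D.rho_one, D.rho_one]

theorem Cen.list_prod (hT : ∀ a b c : T, ⁅⁅a, b⁆, c⁆ = 1) (hS : ∀ t : T, Cen D (t ^ 2))
    (L : List T) : Cen D (L.map fun t => t ^ 2).prod := by
  induction L with
  | nil => exact Cen.one
  | cons a L ih =>
    rw [List.map_cons, List.prod_cons]
    exact Cen.mul hT (hS a) ih

/-- The law for products of squares. -/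
theorem wd_squares (hT : ∀ a b c : T, ⁅⁅a, b⁆, c⁆ = 1) (hC : ∀ c : C, c + c = 0 → c = 0)
    (hS : ∀ t : T, Cen D (t ^ 2)) (x a b : Ext D) (L : List (Ext D)) :
    wd x (a ^ 2) (b ^ 2) (L.map fun t => t ^ 2).prod = 1 := by
  apply wd_eq_one hT hC
  · rw [pow_t]; exact hS _
  · rw [pow_t]; exact hS _
  · have e : ((L.map fun t => t ^ 2).prod).t = ((L.map (toT D)).map fun t => t ^ 2).prod := by
      have := map_list_prod (toT D) (L.map fun t => t ^ 2)
      rw [List.map_map] at this ⊢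
      refine Eq.trans this ?_
      simp [Function.comp_def]
    rw [e]
    exact Cen.list_prod hT hS _

/-- The kernel of the projection to the top group is nilpotent of class at most two. -/
theorem comm_comm_ker (x y z : Ext D) (hx : x.t = 1) (hy : y.t = 1) (hz : z.t = 1) :
    ⁅⁅x, y⁆, z⁆ = 1 := by
  have t1 : Triv D (1 : T) := triv_one D
  have e : ⁅x, y⁆ = (⟨0, D.ω x.p y.p, 1⟩ : Ext D) :=
    comm_triv x y (by rw [hx]; exact t1) (by rw [hy]; exact t1) (by rw [hx]; simp)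
  rw [e, comm_triv _ _ t1 (by rw [hz]; exact t1) (by simp), D.ω_zero_left, one_def]

/-- Torsion-freeness. -/
theorem torsion_free (hT : ∀ (t : T) (n : ℕ), n ≠ 0 → t ^ n = 1 → t = 1)
    (hP : ∀ (p : P) (n : ℕ), n ≠ 0 → n • p = 0 → p = 0)
    (hC : ∀ (c : C) (n : ℕ), n ≠ 0 → n • c = 0 → c = 0)
    (x : Ext D) (n : ℕ) (hn : n ≠ 0) (h : x ^ n = 1) : x = 1 := by
  have ht : x.t = 1 := by
    apply hT _ n hn
    rw [← pow_t, h]; rfl
  have hp : x.p = 0 := by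
    apply hP _ n hn
    have e : ∀ m : ℕ, (x ^ m).p = m • x.p := by
      intro m
      induction m with
      | zero => simp [one_p]
      | succ m ih => rw [pow_succ, mul_p, pow_t, ht, one_pow, D.rho_one, ih, succ_nsmul]
    rw [← e, h]; rfl
  have hc : x.c = 0 := by
    apply hC _ n hn
    have e : ∀ m : ℕ, (x ^ m).c = m • x.c := by
      intro m
      induction m with
      | zero => simp [one_c]
      | succ m ih =>
        rw [pow_succ, mul_c, pow_t, ht, one_pow, D.rho_one, ih, succ_nsmul, hp, D.kappa_zero]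
        simp
    rw [← e, h]; rfl
  ext
  · exact hp
  · exact hc
  · exact ht

end Ext

/-- Functoriality. -/
def Ext.map {T' P' C' : Type} [Group T'] [AddCommGroup P'] [AddCommGroup C']
    (D' : Data T' P' C') (D : Data T P C) (π : T' →* T) (f : P' →+ P) (φ : C' →+ C)
    (hρ : ∀ t p, f (D'.ρ t p) = D.ρ (π t) (f p))
    (hβ : ∀ p q, φ (D'.β p q) = D.β (f p) (f q))
    (hκ : ∀ t p, φ (D'.κ t p) = D.κ (π t) (f p)) : Ext D' →* Ext D where
  toFun x := ⟨f x.p, φ x.c, π x.t⟩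
  map_one' := by simp [Ext.one_def]
  map_mul' x y := by
    ext
    · simp only [Ext.mul_p, map_add, hρ]
    · simp only [Ext.mul_c, map_add, hρ, hβ, hκ]
    · simp only [Ext.mul_t, map_mul]

end Pool.Agent.LibTFV
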