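import Pool.Agent.LibTFV.Defs
import Pool.Agent.LibTFV.Final

set_option autoImplicit false

/-! Varieties of groups given by sets of laws. -/

namespace Pool.Agent.LibTFV

open scoped commutatorElement

/-- Letters can be renamed injectively. -/
theorem exists_rename {X : Type*} (g : FreeGroup X) :
    ∃ (b : X → ℕ) (a : ℕ → FreeGroup X), FreeGroup.lift a (FreeGroup.map b g) = g := by
  classical
  let S : Finset X := (g.toWord.map Prod.fst).toFinset
  let b : X → ℕ := fun x => if h : x ∈ S then (S.equivFin ⟨x, h⟩ : ℕ) else 0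
  let a : ℕ → FreeGroup X := fun n =>
    if h : ∃ x ∈ S, b x = n then FreeGroup.of h.choose else 1
  have hinj : ∀ x ∈ S, ∀ y ∈ S, b x = b y → x = y := by
    intro x hx y hy h
    simp only [b, hx, hy, dif_pos] at h
    have := S.equivFin.injective (Fin.ext h)
    exact congrArg Subtype.val this
  have hab : ∀ x ∈ S, a (b x) = FreeGroup.of x := by
    intro x hx
    have h : ∃ y ∈ S, b y = b x := ⟨x, hx, rfl⟩
    simp only [a, dif_pos h]
    congr 1
    exact hinj _ h.choose_spec.1 _ hx h.choose_spec.2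
  refine ⟨b, a, ?_⟩
  have hg : FreeGroup.mk g.toWord = g := FreeGroup.mk_toWord
  have hmem : ∀ p ∈ g.toWord, p.1 ∈ S := by
    intro p hp
    simp only [S, List.mem_toFinset, List.mem_map]
    exact ⟨p, hp, rfl⟩
  rw [← hg]
  generalize g.toWord = W at hmem
  rw [FreeGroup.map.mk, FreeGroup.lift_mk, List.map_map]
  conv_rhs => rw [← FreeGroup.lift_of_apply (FreeGroup.mk W), FreeGroup.lift_mk]
  congr 1
  apply List.map_congr_left
  intro p hp
  simp only [Function.comp_apply, hab _ (hmem p hp)]

/-- A word involves finitely many letters. -/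
theorem exists_bound (w : FreeGroup ℕ) :
    ∃ m : ℕ, ∀ (G : Type) [Group G] (f f' : ℕ → G), (∀ n < m, f n = f' n) →
      FreeGroup.lift f w = FreeGroup.lift f' w := by
  refine ⟨(w.toWord.map Prod.fst).sum + 1, fun G _ f f' h => ?_⟩
  have hw : FreeGroup.mk w.toWord = w := FreeGroup.mk_toWord
  rw [← hw, FreeGroup.lift_mk, FreeGroup.lift_mk]
  congr 1
  apply List.map_congr_left
  intro p hp
  have hp' : p.1 ≤ (w.toWord.map Prod.fst).sum :=
    List.single_le_sum (fun _ _ => Nat.zero_le _) _ (List.mem_map_of_mem hp)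
  rw [h p.1 (by omega)]

/-- The laws of all good groups. -/
def goodLaws : Set (FreeGroup ℕ) :=
  {w | ∀ (K : Type) [Group K], Good K → ∀ f : ℕ → K, FreeGroup.lift f w = 1}

theorem lift_comp {X Y : Type*} {G : Type*} [Group G] (f : Y → G) (a : X → FreeGroup Y)
    (w : FreeGroup X) :
    FreeGroup.lift f (FreeGroup.lift a w) = FreeGroup.lift (fun n => FreeGroup.lift f (a n)) w := by
  have e : (FreeGroup.lift f).comp (FreeGroup.lift a) =
      FreeGroup.lift (fun n => FreeGroup.lift f (a n)) := by
    apply FreeGroup.ext_hom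
    intro x
    simp
  exact DFunLike.congr_fun e w

theorem lift_map_comp {X Y : Type*} {G : Type*} [Group G] (f : Y → G) (b : X → Y)
    (w : FreeGroup X) :
    FreeGroup.lift f (FreeGroup.map b w) = FreeGroup.lift (fun n => f (b n)) w := by
  rw [FreeGroup.map_eq_lift, lift_comp]
  simp

theorem lift_hom {X G H : Type*} [Group G] [Group H] (ψ : G →* H) (f : X → G)
    (w : FreeGroup X) : ψ (FreeGroup.lift f w) = FreeGroup.lift (fun n => ψ (f n)) w := by
  have e : ψ.comp (FreeGroup.lift f) = FreeGroup.lift (fun n => ψ (f n)) := by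
    apply FreeGroup.ext_hom
    intro x
    simp
  exact DFunLike.congr_fun e w

/-- Elements of a free group which are trivial in all good groups are values of laws. -/
theorem exists_law {X : Type*} (g : FreeGroup X)
    (hg : ∀ (K : Type) [Group K], Good K → ∀ f : X → K, FreeGroup.lift f g = 1) :
    ∃ w ∈ goodLaws, ∃ a : ℕ → FreeGroup X, FreeGroup.lift a w = g := by
  obtain ⟨b, a, hab⟩ := exists_rename g
  refine ⟨FreeGroup.map b g, ?_, a, hab⟩
  intro K _ hK f
  rw [lift_map_comp]
  exact hg K hK _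

theorem lift_eq_one_of_satisfies {X : Type*} {G : Type*} [Group G] (hG : Satisfies goodLaws G)
    (g : FreeGroup X)
    (hg : ∀ (K : Type) [Group K], Good K → ∀ f : X → K, FreeGroup.lift f g = 1)
    (f : X → G) : FreeGroup.lift f g = 1 := by
  obtain ⟨w, hw, a, rfl⟩ := exists_law g hg
  rw [lift_comp]
  exact hG w hw _

theorem mem_verbal_iff {X : Type*} (g : FreeGroup X) :
    g ∈ verbalSubgroup goodLaws (FreeGroup X) ↔
      ∀ (K : Type) [Group K], Good K → ∀ f : X → K, FreeGroup.lift f g = 1 := by
  constructor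
  · intro h K _ hK f
    have hle : verbalSubgroup goodLaws (FreeGroup X) ≤ (FreeGroup.lift f).ker := by
      apply Subgroup.normalClosure_le_normal
      rintro _ ⟨w, hw, a, rfl⟩
      change FreeGroup.lift f (FreeGroup.lift a w) = 1
      rw [lift_comp]
      exact hw K hK _
    exact hle h
  · intro h
    obtain ⟨w, hw, a, ha⟩ := exists_law g h
    exact Subgroup.subset_normalClosure ⟨w, hw, a, ha⟩

theorem free_torsion_free (X : Type*) (g : FreeGroup X ⧸ verbalSubgroup goodLaws (FreeGroup X))
    (hg : IsOfFinOrder g) : g = 1 := by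
  obtain ⟨n, hn, h⟩ := isOfFinOrder_iff_pow_eq_one.mp hg
  induction g using QuotientGroup.induction_on with
  | H g =>
    rw [← QuotientGroup.mk_pow, QuotientGroup.eq_one_iff, mem_verbal_iff] at h
    rw [QuotientGroup.eq_one_iff, mem_verbal_iff]
    intro K _ hK f
    have := h K hK f
    rw [map_pow] at this
    exact hK.tf _ n hn.ne' this

theorem good_meta {G : Type*} [Group G] (hG : Satisfies goodLaws G) :
    ∀ x ∈ (⊤ : Subgroup G).lowerCentralSeries 2, ∀ y ∈ (⊤ : Subgroup G).lowerCentralSeries 2,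
      ∀ z ∈ (⊤ : Subgroup G).lowerCentralSeries 2, ⁅⁅x, y⁆, z⁆ = 1 := by
  let π : FreeGroup G →* G := FreeGroup.lift id
  have hπ : Function.Surjective π := by
    intro g
    exact ⟨FreeGroup.of g, by simp [π]⟩
  have hlift : ∀ x ∈ (⊤ : Subgroup G).lowerCentralSeries 2,
      ∃ s ∈ (⊤ : Subgroup (FreeGroup G)).lowerCentralSeries 2, π s = x := by
    intro x hx
    rw [← Subgroup.map_top_of_surjective π hπ, ← Subgroup.map_lowerCentralSeries] at hx
    exact hx
  intro x hx y hy z hz
  obtain ⟨s, hs, rfl⟩ := hlift x hx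
  obtain ⟨t, ht, rfl⟩ := hlift y hy
  obtain ⟨r, hr, rfl⟩ := hlift z hz
  have := lift_eq_one_of_satisfies hG ⁅⁅s, t⁆, r⁆ (by
    intro K _ hK f
    have hm : ∀ a ∈ (⊤ : Subgroup (FreeGroup G)).lowerCentralSeries 2,
        FreeGroup.lift f a ∈ (⊤ : Subgroup K).lowerCentralSeries 2 := by
      intro a ha
      have h2 := Subgroup.mem_map_of_mem (FreeGroup.lift f) ha
      rw [Subgroup.map_lowerCentralSeries] at h2
      exact Subgroup.lowerCentralSeries_mono 2 le_top h2
    rw [map_commutatorElement, map_commutatorElement]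
    exact hK.nil _ (hm s hs) _ (hm t ht) _ (hm r hr)) id
  rw [map_commutatorElement, map_commutatorElement] at this
  exact this

theorem class_le_of_lcs {G : Type*} [Group G] {c : ℕ}
    (h : (⊤ : Subgroup G).lowerCentralSeries c = ⊥) : NilpotentOfClassLE c G := by
  have hn : Group.IsNilpotent G := Subgroup.nilpotent_iff_lowerCentralSeries.mpr ⟨c, h⟩
  exact ⟨hn, Subgroup.lowerCentralSeries_eq_bot_iff_nilpotencyClass_le.mp h⟩

theorem metanilpotent {G : Type*} [Group G] (hG : Satisfies goodLaws G) :
    ∃ (N : Subgroup G) (_ : N.Normal), NilpotentOfClassLE 2 N ∧ NilpotentOfClassLE 2 (G ⧸ N) := by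
  refine ⟨(⊤ : Subgroup G).lowerCentralSeries 2, inferInstance, ?_, ?_⟩
  · apply class_le_of_lcs
    apply lcs_two_of_class_two
    intro a b c
    apply Subtype.ext
    exact good_meta hG a.1 a.2 b.1 b.2 c.1 c.2
  · apply class_le_of_lcs
    have h := Subgroup.map_lowerCentralSeries (⊤ : Subgroup G)
      (QuotientGroup.mk' ((⊤ : Subgroup G).lowerCentralSeries 2)) 2
    rw [Subgroup.map_top_of_surjective _ (QuotientGroup.mk'_surjective _)] at h
    rw [← h, Subgroup.map_eq_bot_iff, QuotientGroup.ker_mk']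

theorem not_finitely_based :
    ¬ ∃ L' : Set (FreeGroup ℕ), L'.Finite ∧
      ∀ (G : Type) [Group G], Satisfies L' G ↔ Satisfies goodLaws G := by
  rintro ⟨L', hfin, hL'⟩
  have hsub : L' ⊆ goodLaws := by
    intro w hw K _ hK f
    have : Satisfies goodLaws K := fun w' hw' f' => hw' K hK f'
    exact (hL' K).mpr this w hw f
  obtain ⟨m, hm⟩ : ∃ m : ℕ, ∀ w ∈ L', ∀ (G : Type) [Group G] (f f' : ℕ → G),
      (∀ n < m, f n = f' n) → FreeGroup.lift f w = FreeGroup.lift f' w := by
    choose b hb using exists_bound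
    refine ⟨hfin.toFinset.sup b, fun w hw G _ f f' h => hb w G f f' fun n hn => h n ?_⟩
    exact lt_of_lt_of_le hn (Finset.le_sup (hfin.mem_toFinset.mpr hw))
  obtain ⟨G, hG, ⟨x, a, b, L, hne⟩, hcov⟩ := exists_detecting m
  have hsat : Satisfies L' G := by
    intro w hw f
    let f' : ℕ → G := fun n => if n < m then f n else 1
    rw [hm w hw G f f' (fun n hn => by simp [f', hn])]
    obtain ⟨K, hK, ψ, hgood, hk⟩ := hcov f' (fun n hn => by simp [f', not_lt.mpr hn])
    choose k hk using hk
    have e : FreeGroup.lift f' w = ψ (FreeGroup.lift k w) := by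
      rw [lift_hom]
      congr 2
      funext n
      exact (hk n).symm
    rw [e, hsub hw K hgood k, map_one]
  have hsat' : Satisfies goodLaws G := (hL' G).mp hsat
  apply hne
  have key := lift_eq_one_of_satisfies hsat'
    (wd (FreeGroup.of x) (FreeGroup.of a ^ 2) (FreeGroup.of b ^ 2)
      ((L.map FreeGroup.of).map fun t => t ^ 2).prod) (by
      intro K _ hK f
      rw [map_wd, map_pow, map_pow, map_list_prod, List.map_map, List.map_map]
      have := hK.law (FreeGroup.lift f (FreeGroup.of x)) (FreeGroup.lift f (FreeGroup.of a))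
        (FreeGroup.lift f (FreeGroup.of b)) (L.map fun g => FreeGroup.lift f (FreeGroup.of g))
      rw [List.map_map] at this
      simpa [Function.comp_def] using this) id
  rw [map_wd, map_pow, map_pow, map_list_prod, List.map_map, List.map_map] at key
  simpa [Function.comp_def] using key

/-- The main theorem. -/
theorem main :
    ∃ L : Set (FreeGroup ℕ),
      (∀ (X : Type) (g : FreeGroup X ⧸ verbalSubgroup L (FreeGroup X)), IsOfFinOrder g → g = 1) ∧
      (∀ (G : Type) [Group G], Satisfies L G →
        ∃ (N : Subgroup G) (_ : N.Normal),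
          NilpotentOfClassLE 2 N ∧ NilpotentOfClassLE 2 (G ⧸ N)) ∧
      ¬ ∃ L' : Set (FreeGroup ℕ), L'.Finite ∧
        ∀ (G : Type) [Group G], Satisfies L' G ↔ Satisfies L G :=
  ⟨goodLaws, free_torsion_free, fun _ _ hG => metanilpotent hG, not_finitely_based⟩

end Pool.Agent.LibTFV
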